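import Mathlib
import Pool.Agent.Lib.P4a7640.Furst
import Pool.Agent.Lib.P4a7640.Dist
import Pool.Agent.Lib.P4a7640.Interp
import Pool.Agent.Lib.P4a7640L.Base
import Pool.Agent.Lib.P4a7640D.Base

/-!
# Random dichotomy: definitions

`prodSeq f H n = ∏_{h ∈ H} f(n+h)` (as a real), `LA a N = (1/log N) ∑_{n ≤ N} a n / n`,
`VanishL l f`: all `LA (prodSeq f H)` (`H` nonempty) tend to `0` along `l`,
`rnd x`: completely multiplicative with `rnd x p = x p`, `Nk η k = ⌈exp (exp (η k))⌉`,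
`uu H D n = (-1)^#{p ∈ D : ∃ h ∈ H, p ∣ n + h}`.
-/

open Finset Filter Topology

namespace Pool.Agent.Lib.P4a7640R

open Pool.Agent.Lib.P4a7640 Pool.Agent.Lib.P4a7640L Pool.Agent.Lib.P4a7640D

/-- the primes `p ≤ N` with `N < p ^ (2 ^ c)` -/
def TOPc (c N : ℕ) : Finset ℕ := (Icc 1 N).filter fun p => p.Prime ∧ N < p ^ (2 ^ c)

/-- the sign `(-1)^#{p ∈ D : p ∣ n}` -/
def dfl (D : Finset ℕ) (n : ℕ) : ℤˣ := ∏ p ∈ D, if p ∣ n then -1 else 1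

/-- the primes `p ≤ N` with `y < p` -/
noncomputable def PR (y : ℝ) (N : ℕ) : Finset ℕ := by
  classical exact (Icc 1 N).filter fun p => p.Prime ∧ y < (p : ℝ)

/-- mass of the primes `p ∈ s` with `x p = -1` -/
noncomputable def FM (x : ℕ → ℤˣ) (s : Finset ℕ) : ℝ := ∑ p ∈ s, if x p = -1 then (1:ℝ) / p else 0

/-- the mass `∑_{p ≤ N, x p = -1} 1/p` tends to infinity -/
def DivS (x : ℕ → ℤˣ) : Prop :=
  Tendsto (fun N : ℕ => FM x ((Icc 1 N).filter Nat.Prime)) atTop atTop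

open Classical in
/-- `S` has upper logarithmic density one -/
def UpDens (S : Set ℕ) : Prop :=
  ∃ K : ℕ → ℕ, StrictMono K ∧
    Tendsto (fun k => (∑ N ∈ (Icc 1 (K k)).filter (fun N => N ∈ S), (1:ℝ) / N) / Real.log (K k))
      atTop (𝓝 1)

lemma mem_TOPc {c N p : ℕ} : p ∈ TOPc c N ↔ p ≤ N ∧ p.Prime ∧ N < p ^ (2 ^ c) := by
  unfold TOPc
  rw [mem_filter, mem_Icc]
  constructor
  · rintro ⟨⟨_, h2⟩, h3, h4⟩
    exact ⟨h2, h3, h4⟩
  · rintro ⟨h2, h3, h4⟩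
    exact ⟨⟨h3.pos, h2⟩, h3, h4⟩

lemma mem_PR {y : ℝ} {N p : ℕ} : p ∈ PR y N ↔ p ≤ N ∧ p.Prime ∧ y < (p : ℝ) := by
  unfold PR
  rw [mem_filter, mem_Icc]
  constructor
  · rintro ⟨⟨_, h2⟩, h3, h4⟩
    exact ⟨h2, h3, h4⟩
  · rintro ⟨h2, h3, h4⟩
    exact ⟨⟨h3.pos, h2⟩, h3, h4⟩

lemma FM_nonneg (x : ℕ → ℤˣ) (s : Finset ℕ) : 0 ≤ FM x s := by
  unfold FM
  refine sum_nonneg fun p _ => ?_
  split_ifs
  · positivity
  · exact le_rfl

lemma FM_mono (x : ℕ → ℤˣ) {s t : Finset ℕ} (h : s ⊆ t) : FM x s ≤ FM x t := by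
  unfold FM
  refine sum_le_sum_of_subset_of_nonneg h fun p _ _ => ?_
  split_ifs
  · positivity
  · exact le_rfl

lemma FM_congr {x y : ℕ → ℤˣ} {s : Finset ℕ} (h : ∀ p ∈ s, x p = y p) : FM x s = FM y s := by
  unfold FM
  exact sum_congr rfl fun p hp => by rw [h p hp]

end Pool.Agent.Lib.P4a7640R
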