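import Mathlib
import Pool.Agent.Lib.P4a7640R.Base
import Pool.Agent.Lib.P4a7640.Asym
import Pool.Agent.Lib.P4a7640L.Net
import Pool.Agent.Lib.P4a7640D.BlockMass

/-!
# Scales with much mass above the triple logarithm

Module P4R.AeRate (1.3 h).  Adaptation of `ae_seq` in `Lib/P4a7640R/AeSeq.lean` and of
`eventually_AVL_le`, `ae_eventually_small` in `Lib/P4a7640/Asym.lean`.

* Let `N = Nk η k`, `y = K * l3 N` with `K = K(δ, H)` so large that `conc` (with `ε = δ/2`) bounds the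
  probability of `δ/2 ≤ |FF - AVL ..|` by `2 exp(-(δ² y / (256 |H|²))) ≤ 2 / k²` for large `k`
  (`l3 N ≥ log (η k) ≥ (log k)/2` for large `k` by `ll_Nk`); Borel-Cantelli.
* Conditional mean: by `AVL_FF_le` and `exp_avg` with `s = {p ≤ N : K * l3 N < p, log p ≤ ε log N}` it is
  at most `8 ε + 4 (CH h₀ + 1)/log N + 20 (1 + CH h₀/log N)/V + exp(-V) (1 + 1/log N)`, `V = VV s τ`,
  `τ p = min (θ p) (1 - θ p)`, so it is `≤ δ/2` for large `N` as soon as `V ≥ V₀(δ)`.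
* `V ≥ ∑_{p ∈ PR (l3 N) N} τ p / p - ∑_{l3 N < p ≤ K l3 N} 1/p - ∑_{p ≤ N, log p > ε log N} 1/p`; the last two
  sums are bounded by a constant depending on `K` and `ε` (for the last one `top_mass` in
  `Lib/P4a7640D/BlockMass.lean`, for the first one also: `p ∈ (y₀, K y₀]`, the integers in this interval give
  at most `log K + 2` for large `y₀`).  Take `C` = `V₀` + this constant.
-/

open MeasureTheory ProbabilityTheory Filter Topology Finset

namespace Pool.Agent.Lib.P4a7640R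

open Pool.Agent.Lib.P4a7640 Pool.Agent.Lib.P4a7640L Pool.Agent.Lib.P4a7640D

variable {ν : ℕ → Measure ℤˣ} [∀ p, IsProbabilityMeasure (ν p)]

private lemma mem_TP' {K ε : ℝ} {N p : ℕ} : p ∈ TP K ε N ↔
    (1 ≤ p ∧ p ≤ N) ∧ p.Prime ∧ K * l3 N < p ∧ Real.log p ≤ ε * Real.log N := by
  unfold TP
  rw [mem_filter, mem_Icc]

/-- the primes `l3 N < p ≤ K l3 N` have mass at most `K` -/
private lemma bottom_mass {K : ℝ} (hK : 0 < K) {y : ℝ} (hy : 0 < y) (D : Finset ℕ)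
    (hD : ∀ p ∈ D, y < (p : ℝ) ∧ (p : ℝ) ≤ K * y) : ∑ p ∈ D, (1 : ℝ) / p ≤ K := by
  have h1 : ∑ p ∈ D, (1 : ℝ) / p ≤ ∑ _p ∈ D, 1 / y := by
    refine sum_le_sum fun p hp => ?_
    exact one_div_le_one_div_of_le hy (hD p hp).1.le
  have h2 : D ⊆ Icc 1 ⌊K * y⌋₊ := by
    intro p hp
    obtain ⟨h3, h4⟩ := hD p hp
    rw [mem_Icc]
    constructor
    · have h5 : (0 : ℝ) < p := by linarith
      exact_mod_cast h5
    · exact Nat.le_floor h4
  have h3 : (D.card : ℝ) ≤ K * y := by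
    have h4 := card_le_card h2
    rw [Nat.card_Icc, Nat.add_sub_cancel] at h4
    have h5 : (D.card : ℝ) ≤ (⌊K * y⌋₊ : ℝ) := by exact_mod_cast h4
    exact h5.trans (Nat.floor_le (by positivity))
  refine h1.trans ?_
  rw [sum_const, nsmul_eq_mul]
  calc (D.card : ℝ) * (1 / y) ≤ (K * y) * (1 / y) :=
        mul_le_mul_of_nonneg_right h3 (by positivity)
    _ = K := by field_simp

private lemma mass_le {τ : ℕ → ℝ} (hτ : ∀ p, 0 ≤ τ p) (hτ1 : ∀ p, τ p ≤ 1) {K ε : ℝ}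
    (hK : 0 < K) (hε : 0 < ε) : ∃ B : ℝ, 0 ≤ B ∧ ∀ᶠ N : ℕ in atTop,
      ∑ p ∈ PR (l3 N) N, τ p / (p : ℝ) ≤ VV (TP K ε N) τ + B := by
  classical
  obtain ⟨C, hC, htop⟩ := top_mass
  obtain ⟨c, hc⟩ := exists_pow_lt_of_lt_one hε (show (1 / 2 : ℝ) < 1 by norm_num)
  refine ⟨K + C * (c + 4), by positivity, ?_⟩
  filter_upwards [eventually_ge_atTop 2, tendsto_l3.eventually_gt_atTop 0] with N hi hl3
  have hN1 : (1 : ℝ) < N := by exact_mod_cast hi
  have hlog : 0 < Real.log N := Real.log_pos hN1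
  have h1 : ∑ p ∈ PR (l3 N) N, τ p / (p : ℝ) =
      ∑ p ∈ (PR (l3 N) N).filter (fun p : ℕ => Real.log p ≤ ε * Real.log N), τ p / (p : ℝ) +
      ∑ p ∈ (PR (l3 N) N).filter (fun p : ℕ => ¬ (Real.log p ≤ ε * Real.log N)),
        τ p / (p : ℝ) := (sum_filter_add_sum_filter_not _ _ _).symm
  have h2 : ∑ p ∈ (PR (l3 N) N).filter (fun p : ℕ => Real.log p ≤ ε * Real.log N),
      τ p / (p : ℝ) =
      ∑ p ∈ ((PR (l3 N) N).filter (fun p : ℕ => Real.log p ≤ ε * Real.log N)).filter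
        (fun p : ℕ => K * l3 N < (p : ℝ)), τ p / (p : ℝ) +
      ∑ p ∈ ((PR (l3 N) N).filter (fun p : ℕ => Real.log p ≤ ε * Real.log N)).filter
        (fun p : ℕ => ¬ (K * l3 N < (p : ℝ))), τ p / (p : ℝ) :=
    (sum_filter_add_sum_filter_not _ _ _).symm
  have hD : ∑ p ∈ (PR (l3 N) N).filter
      (fun p : ℕ => ¬ (Real.log p ≤ ε * Real.log N)), (1 : ℝ) / p ≤ C * (c + 4) := by
    apply htop c N
    intro p hp
    rw [mem_filter, mem_PR] at hp
    obtain ⟨⟨h2, h3, _⟩, h4⟩ := hp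
    push Not at h4
    have hp0 : (0 : ℝ) < p := by exact_mod_cast h3.pos
    refine ⟨h3, h2.trans (by nlinarith), ?_⟩
    have h5 : Real.log N < Real.log ((p : ℝ) ^ (2 ^ c)) := by
      rw [Real.log_pow]
      have h6 : (1 : ℝ) < (2 : ℝ) ^ c * ε := by
        have h7 : (0 : ℝ) < 2 ^ c := by positivity
        have h8 : (1 / 2 : ℝ) ^ c * 2 ^ c = 1 := by
          rw [← mul_pow]
          norm_num
        nlinarith
      have h7 : (2 : ℝ) ^ c * (ε * Real.log N) < (2 : ℝ) ^ c * Real.log p :=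
        mul_lt_mul_of_pos_left h4 (by positivity)
      push_cast
      nlinarith
    have h6 : ((N : ℕ) : ℝ) < (p : ℝ) ^ (2 ^ c) :=
      (Real.log_lt_log_iff (by linarith) (by positivity)).mp h5
    exact_mod_cast h6
  have hD2 : ∑ p ∈ (PR (l3 N) N).filter
      (fun p : ℕ => ¬ (Real.log p ≤ ε * Real.log N)), τ p / (p : ℝ) ≤ C * (c + 4) := by
    refine le_trans (Finset.sum_le_sum fun p _ => ?_) hD
    exact div_le_div_of_nonneg_right (hτ1 p) (Nat.cast_nonneg p)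
  have hE : ∑ p ∈ ((PR (l3 N) N).filter (fun p : ℕ => Real.log p ≤ ε * Real.log N)).filter
      (fun p : ℕ => ¬ (K * l3 N < (p : ℝ))), τ p / (p : ℝ) ≤ K := by
    refine le_trans (Finset.sum_le_sum (g := fun p : ℕ => (1 : ℝ) / p) fun p _ => ?_)
      (bottom_mass hK hl3 _ ?_)
    · exact div_le_div_of_nonneg_right (hτ1 p) (Nat.cast_nonneg p)
    · intro p hp
      rw [mem_filter, mem_filter, mem_PR] at hp
      obtain ⟨⟨⟨_, _, h4⟩, _⟩, h5⟩ := hp
      push Not at h5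
      exact ⟨h4, h5⟩
  have hF : ∑ p ∈ ((PR (l3 N) N).filter (fun p : ℕ => Real.log p ≤ ε * Real.log N)).filter
      (fun p : ℕ => K * l3 N < (p : ℝ)), τ p / (p : ℝ) ≤ VV (TP K ε N) τ := by
    unfold VV
    apply sum_le_sum_of_subset_of_nonneg
    · intro p hp
      rw [mem_filter, mem_filter, mem_PR] at hp
      obtain ⟨⟨⟨h3, h4, _⟩, h5⟩, h6⟩ := hp
      rw [mem_TP']
      exact ⟨⟨h4.pos, h3⟩, h4, h6, h5⟩
    · intro p _ _
      exact div_nonneg (hτ p) (Nat.cast_nonneg p)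
  linarith

/-- smallness of the conditional means at scales with enough mass -/
private lemma eventually_AVL_le_mass {θ : ℕ → ℝ} (hθ0 : ∀ p, 0 ≤ θ p) (hθ1 : ∀ p, θ p ≤ 1)
    {w : ℕ → ℝ} (hw : ∀ n, |w n| ≤ 1)
    {H : Finset ℕ} {hm : ℕ} (hne : H.Nonempty) (hH : ∀ h ∈ H, h ≤ hm) {K δ : ℝ} (hK : 0 < K)
    (hδ : 0 < δ) :
    ∃ C : ℝ, ∀ᶠ N : ℕ in atTop,
      C ≤ ∑ p ∈ PR (l3 N) N, min (θ p) (1 - θ p) / (p : ℝ) →
      ∀ x : SS, |AVL θ (PL hm N (K * l3 N)).toList (FF w H N) x| ≤ δ := by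
  obtain ⟨τ, hτd⟩ : ∃ τ : ℕ → ℝ, τ = fun p => min (θ p) (1 - θ p) := ⟨_, rfl⟩
  have hτ : ∀ p, 0 ≤ τ p := fun p => by
    rw [hτd]
    exact le_min (hθ0 p) (by linarith [hθ1 p])
  have hτ1 : ∀ p, τ p ≤ 1 := fun p => by
    rw [hτd]
    exact (min_le_left _ _).trans (hθ1 p)
  obtain ⟨h₀, hh₀⟩ := hne
  obtain ⟨B, hB0, hB⟩ := mass_le hτ hτ1 hK (show (0 : ℝ) < δ / 32 by positivity)
  refine ⟨160 / δ + B, ?_⟩
  have hy : Tendsto (fun N : ℕ => K * l3 N) atTop atTop := tendsto_l3.const_mul_atTop hK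
  have hCH := CH_pos h₀
  have e1 : ∀ᶠ N : ℕ in atTop, 4 * (CH h₀ + 1) / Real.log N ≤ δ / 4 := by
    have h1 : Tendsto (fun N : ℕ => 4 * (CH h₀ + 1) / Real.log N) atTop (𝓝 0) :=
      tendsto_logN.const_div_atTop _
    exact h1.eventually (eventually_le_nhds (by positivity))
  filter_upwards [hB, eventually_ge_atTop 2, hy.eventually_ge_atTop (2 * hm + 1), e1,
    tendsto_logN.eventually_ge_atTop (CH h₀), tendsto_logN.eventually_ge_atTop 1]
    with N h1 h2 h4 h5 h6 h7 hmass x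
  have hVge : 160 / δ ≤ VV (TP K (δ / 32) N) τ := by
    have h8 : ∑ p ∈ PR (l3 N) N, min (θ p) (1 - θ p) / (p : ℝ) =
        ∑ p ∈ PR (l3 N) N, τ p / (p : ℝ) := by rw [hτd]
    rw [h8] at hmass
    linarith
  have hV0 : 0 < VV (TP K (δ / 32) N) τ := lt_of_lt_of_le (by positivity) hVge
  refine (AVL_FF_le hθ0 hθ1 hw h2 hh₀ hH (s := TP K (δ / 32) N) ?_ x).trans ?_
  · intro p hp
    rw [mem_TP'] at hp
    obtain ⟨⟨hp1, hp2⟩, hpp, hp3, hp4⟩ := hp
    constructor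
    · unfold PL
      rw [Finset.mem_filter, Finset.mem_Icc]
      exact ⟨⟨hp1, by omega⟩, hpp, hp3⟩
    · have h5 : (hm:ℝ) < p := by
        have : (0:ℝ) ≤ hm := Nat.cast_nonneg hm
        linarith
      exact_mod_cast h5
  · have hexp := exp_avg (h := h₀) (ε := δ / 32) hτ hτ1 h2 hV0 (by
      intro p hp
      rw [mem_TP'] at hp
      obtain ⟨⟨hp1, hp2⟩, hpp, hp3, hp4⟩ := hp
      have h5 : 2 * (hm:ℝ) + 1 < p := by linarith
      have h6 : 2 * hm + 1 < p := by exact_mod_cast h5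
      have h7 := hH h₀ hh₀
      exact ⟨hpp, by omega, by omega, hp2, hp4⟩)
    have hτe : (fun p => min (θ p) (1 - θ p)) = τ := hτd.symm
    rw [hτe]
    refine hexp.trans ?_
    obtain ⟨V, hV⟩ : ∃ V : ℝ, V = VV (TP K (δ / 32) N) τ := ⟨_, rfl⟩
    rw [← hV] at hVge hV0 ⊢
    have hl0 : (0 : ℝ) < Real.log N := by linarith
    have a1 : 20 * (1 + CH h₀ / Real.log N) / V ≤ δ / 4 := by
      have h8 : CH h₀ / Real.log N ≤ 1 := (div_le_one hl0).mpr h6
      rw [div_le_iff₀ hV0]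
      have h9 : δ * (160 / δ) ≤ δ * V := mul_le_mul_of_nonneg_left hVge hδ.le
      have h10 : δ * (160 / δ) = 160 := by field_simp
      nlinarith
    have a2 : Real.exp (-V) * (1 + 1 / Real.log N) ≤ δ / 4 := by
      have h8 : 1 / Real.log N ≤ 1 := (div_le_one hl0).mpr h7
      have h9 : Real.exp (-V) ≤ 1 / V := by
        rw [Real.exp_neg, ← one_div]
        apply one_div_le_one_div_of_le hV0
        have := Real.add_one_le_exp V
        linarith
      have h10 : δ * (160 / δ) ≤ δ * V := mul_le_mul_of_nonneg_left hVge hδ.le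
      have h11 : δ * (160 / δ) = 160 := by field_simp
      calc Real.exp (-V) * (1 + 1 / Real.log N) ≤ 1 / V * 2 := by
            apply mul_le_mul h9 (by linarith) (by positivity) (by positivity)
        _ ≤ δ / 4 := by
            rw [one_div, inv_mul_eq_div, div_le_iff₀ hV0]
            nlinarith
    linarith

theorem ae_rate {θ : ℕ → ℝ} (hθ : ∀ p, θ p = (ν p).real {-1}) {H : Finset ℕ} (hne : H.Nonempty)
    {η : ℝ} (hη : 0 < η) {δ : ℝ} (hδ : 0 < δ) :
    ∃ C : ℝ, ∀ᵐ x ∂(Measure.infinitePi ν), ∀ᶠ k : ℕ in atTop,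
      C ≤ ∑ p ∈ PR (l3 (Nk η k)) (Nk η k), min (θ p) (1 - θ p) / (p : ℝ) →
      |FF (fun _ => 1) H (Nk η k) x| ≤ δ := by
  have hθ0 : ∀ p, 0 ≤ θ p := fun p => by rw [hθ]; exact measureReal_nonneg
  have hθ1 : ∀ p, θ p ≤ 1 := fun p => by rw [hθ]; exact measureReal_le_one
  obtain ⟨w, hwd⟩ : ∃ w : ℕ → ℝ, w = fun _ => 1 := ⟨_, rfl⟩
  have hw : ∀ n, |w n| ≤ 1 := fun n => by rw [hwd]; simp
  rw [← hwd]
  set hm := H.sup id with hmd
  have hH : ∀ h ∈ H, h ≤ hm := fun h hh => Finset.le_sup (f := id) hh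
  have hc0 : (0:ℝ) < H.card := by exact_mod_cast hne.card_pos
  set K : ℝ := 1024 * H.card ^ 2 / δ ^ 2 with hKd
  have hK : 0 < K := by positivity
  obtain ⟨C, hC⟩ := eventually_AVL_le_mass hθ0 hθ1 hw hne hH hK (half_pos hδ)
  refine ⟨C, ?_⟩
  have hNk := tendsto_Nk hη
  set s : ℕ → Set SS := fun k => {x | δ / 2 ≤ |FF w H (Nk η k) x -
    AVL θ (PL hm (Nk η k) (K * l3 (Nk η k))).toList (FF w H (Nk η k)) x|} with hs
  have hbound : ∀ᶠ k : ℕ in atTop, ‖(Measure.infinitePi ν).real (s k)‖ ≤ 2 * (1 / (k:ℝ)^2) := by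
    have hy : Tendsto (fun k : ℕ => K * l3 (Nk η k)) atTop atTop :=
      (tendsto_l3.comp hNk).const_mul_atTop hK
    have hlog : Tendsto (fun k : ℕ => Real.log (Nk η k)) atTop atTop := tendsto_logN.comp hNk
    have hsq : Tendsto (fun k : ℕ => η * Real.sqrt (k : ℝ)) atTop atTop :=
      (Real.tendsto_sqrt_atTop.comp tendsto_natCast_atTop_atTop).const_mul_atTop hη
    filter_upwards [hy.eventually_ge_atTop (2 * hm + 1), hlog.eventually_ge_atTop (CH hm),
      hNk.eventually_ge_atTop 2, eventually_ge_atTop 1, hsq.eventually_ge_atTop 1]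
      with k h1 h2 h3 h4 hsk
    rw [Real.norm_of_nonneg measureReal_nonneg]
    have hm0 : (0:ℝ) ≤ hm := Nat.cast_nonneg hm
    have h5 := conc hθ hw hne h3 hH (y := K * l3 (Nk η k)) (ε := δ / 2)
      (by linarith) (by linarith) h2 (half_pos hδ)
    refine h5.trans ?_
    apply mul_le_mul_of_nonneg_left _ (by norm_num)
    have hk0 : (0:ℝ) < k := by exact_mod_cast h4
    have h6 : Real.log k / 2 ≤ l3 (Nk η k) := by
      have h9 := (ll_Nk hη k).1
      have h10 : Real.sqrt k ≤ η * k := by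
        have h11 := Real.mul_self_sqrt hk0.le
        have h12 := Real.sqrt_nonneg (k : ℝ)
        nlinarith
      have h11 : Real.sqrt k ≤ Real.log (Real.log (Nk η k)) := by
        have h12 : ll (Nk η k) = Real.log (Real.log (Nk η k)) := rfl
        linarith
      rw [← Real.log_sqrt hk0.le]
      exact Real.log_le_log (Real.sqrt_pos.mpr hk0) h11
    have h7 : 1 / (k:ℝ)^2 = Real.exp (-(2 * Real.log k)) := by
      rw [Real.exp_neg, ← Real.log_rpow hk0, Real.exp_log (by positivity)]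
      norm_num
    rw [h7]
    apply Real.exp_le_exp.mpr
    rw [neg_le_neg_iff]
    have h8 : (δ / 2) ^ 2 * (K * l3 (Nk η k)) / (64 * H.card ^ 2) = 4 * l3 (Nk η k) := by
      rw [hKd]
      field_simp
      ring
    rw [h8]
    linarith
  have hsum : Summable fun k => (Measure.infinitePi ν).real (s k) :=
    Summable.of_norm_bounded_eventually_nat ((Real.summable_one_div_nat_pow.mpr
      (by norm_num : 1 < 2)).mul_left 2) hbound
  have hne_top : ∑' k, (Measure.infinitePi ν) (s k) ≠ ⊤ := by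
    have h1 := hsum.tsum_ofReal_ne_top
    have h2 : (fun k => ENNReal.ofReal ((Measure.infinitePi ν).real (s k))) =
        fun k => (Measure.infinitePi ν) (s k) := by
      funext k
      exact ofReal_measureReal
    rwa [h2] at h1
  have hBC := ae_eventually_notMem hne_top
  have hsmall := hNk.eventually hC
  filter_upwards [hBC] with x hx
  filter_upwards [hx, hsmall] with k h1 h2 hmass
  have h3 : |FF w H (Nk η k) x -
      AVL θ (PL hm (Nk η k) (K * l3 (Nk η k))).toList (FF w H (Nk η k)) x| < δ / 2 := by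
    by_contra hcon
    push Not at hcon
    exact h1 hcon
  have h4 := h2 hmass x
  calc |FF w H (Nk η k) x| = |(FF w H (Nk η k) x -
        AVL θ (PL hm (Nk η k) (K * l3 (Nk η k))).toList (FF w H (Nk η k)) x) +
        AVL θ (PL hm (Nk η k) (K * l3 (Nk η k))).toList (FF w H (Nk η k)) x| := by
          rw [sub_add_cancel]
    _ ≤ _ := abs_add_le _ _
    _ ≤ δ := by linarith

end Pool.Agent.Lib.P4a7640R
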