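import Mathlib
import Pool.Agent.Lib.P4a7640R.Base
import Pool.Agent.Lib.P4a7640.Asym
import Pool.Agent.Lib.P4a7640D.BlockMass

/-!
# Almost sure smallness along a sequence of scales

Module P4R.AeSeq (1.5 h).  Adaptation of `eventually_AVL_le`, `ae_eventually_small`,
`ae_tendsto_scales` in `Lib/P4a7640/Asym.lean` (copy the proofs) with threshold `y = √i` at the `i`-th
scale `NN i` in place of `C * l3 N`.

* Concentration: `conc` with `y = √i` bounds the probability by `2 exp(-(δ² √i / (64 |H|²)))`, which is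
  summable in `i` (`exp(-a √i) ≤ C / i²`).
* Conditional means: `AVL_FF_le` and `exp_avg` (in `Lib/P4a7640/LogAvg.lean`) with the primes
  `s = {p ≤ NN i : √i < p, log p ≤ ε log (NN i)}`.  The only difference: `VV s τ → ∞` because
  `∑_{p ∈ PR √i (NN i)} τ p / p → ∞` and the primes `p ≤ N` with `log p > ε log N` satisfy
  `N < p ^ (2 ^ c)` for `2 ^ (-c) ≤ ε`, so they contribute at most `C (c + 4)` by `top_mass`
  (`Lib/P4a7640D/BlockMass.lean`).
-/

open MeasureTheory ProbabilityTheory Filter Topology Finset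

namespace Pool.Agent.Lib.P4a7640R

open Pool.Agent.Lib.P4a7640 Pool.Agent.Lib.P4a7640D

variable {ν : ℕ → Measure ℤˣ} [∀ p, IsProbabilityMeasure (ν p)]

/-- test primes at the `i`-th scale -/
noncomputable def TPs (ε : ℝ) (NN : ℕ → ℕ) (i : ℕ) : Finset ℕ := by
  classical exact (PR (Real.sqrt i) (NN i)).filter fun p => Real.log p ≤ ε * Real.log (NN i)

lemma mem_TPs {ε : ℝ} {NN : ℕ → ℕ} {i p : ℕ} : p ∈ TPs ε NN i ↔
    (p ≤ NN i ∧ p.Prime ∧ Real.sqrt i < (p : ℝ)) ∧ Real.log p ≤ ε * Real.log (NN i) := by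
  unfold TPs
  rw [mem_filter, mem_PR]

lemma tendsto_VVs {τ : ℕ → ℝ} (hτ : ∀ p, 0 ≤ τ p) (hτ1 : ∀ p, τ p ≤ 1) {NN : ℕ → ℕ}
    (hNN : Tendsto NN atTop atTop)
    (hmass : Tendsto (fun i : ℕ => ∑ p ∈ PR (Real.sqrt i) (NN i), τ p / (p : ℝ)) atTop atTop)
    {ε : ℝ} (hε : 0 < ε) : Tendsto (fun i : ℕ => VV (TPs ε NN i) τ) atTop atTop := by
  classical
  obtain ⟨C, hC, htop⟩ := top_mass
  obtain ⟨c, hc⟩ := exists_pow_lt_of_lt_one hε (show (1 / 2 : ℝ) < 1 by norm_num)
  have h1 : Tendsto (fun i : ℕ => ∑ p ∈ PR (Real.sqrt i) (NN i), τ p / (p : ℝ) + -(C * (c + 4)))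
      atTop atTop := tendsto_atTop_add_const_right _ _ hmass
  refine tendsto_atTop_mono' atTop ?_ h1
  filter_upwards [hNN.eventually_ge_atTop 2] with i hi
  have hN1 : (1 : ℝ) < NN i := by exact_mod_cast hi
  have hlog : 0 < Real.log (NN i) := Real.log_pos hN1
  have hsplit : ∑ p ∈ PR (Real.sqrt i) (NN i), τ p / (p : ℝ) = VV (TPs ε NN i) τ +
      ∑ p ∈ (PR (Real.sqrt i) (NN i)).filter (fun p : ℕ => ¬ (Real.log p ≤ ε * Real.log (NN i))),
        τ p / (p : ℝ) := by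
    unfold VV TPs
    rw [Finset.sum_filter_add_sum_filter_not]
  have hD : ∑ p ∈ (PR (Real.sqrt i) (NN i)).filter
      (fun p : ℕ => ¬ (Real.log p ≤ ε * Real.log (NN i))), (1 : ℝ) / p ≤ C * (c + 4) := by
    apply htop c (NN i)
    intro p hp
    rw [mem_filter, mem_PR] at hp
    obtain ⟨⟨h2, h3, _⟩, h4⟩ := hp
    push Not at h4
    have hp0 : (0 : ℝ) < p := by exact_mod_cast h3.pos
    refine ⟨h3, h2.trans (by nlinarith), ?_⟩
    have h5 : Real.log (NN i) < Real.log ((p : ℝ) ^ (2 ^ c)) := by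
      rw [Real.log_pow]
      have h6 : (1 : ℝ) < (2 : ℝ) ^ c * ε := by
        have h7 : (0 : ℝ) < 2 ^ c := by positivity
        have h8 : (1 / 2 : ℝ) ^ c * 2 ^ c = 1 := by
          rw [← mul_pow]
          norm_num
        nlinarith
      have h7 : (2 : ℝ) ^ c * (ε * Real.log (NN i)) < (2 : ℝ) ^ c * Real.log p :=
        mul_lt_mul_of_pos_left h4 (by positivity)
      push_cast
      nlinarith
    have h6 : ((NN i : ℕ) : ℝ) < (p : ℝ) ^ (2 ^ c) :=
      (Real.log_lt_log_iff (by linarith) (by positivity)).mp h5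
    exact_mod_cast h6
  have hD2 : ∑ p ∈ (PR (Real.sqrt i) (NN i)).filter
      (fun p : ℕ => ¬ (Real.log p ≤ ε * Real.log (NN i))), τ p / (p : ℝ) ≤ C * (c + 4) := by
    refine le_trans (Finset.sum_le_sum fun p _ => ?_) hD
    exact div_le_div_of_nonneg_right (hτ1 p) (Nat.cast_nonneg p)
  linarith

/-- uniform smallness of the conditional means -/
lemma eventually_AVL_le_seq {θ : ℕ → ℝ} (hθ0 : ∀ p, 0 ≤ θ p) (hθ1 : ∀ p, θ p ≤ 1)
    {NN : ℕ → ℕ} (hNN : Tendsto NN atTop atTop)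
    (hmass : Tendsto (fun i : ℕ => ∑ p ∈ PR (Real.sqrt i) (NN i), min (θ p) (1 - θ p) / (p : ℝ))
      atTop atTop) {w : ℕ → ℝ} (hw : ∀ n, |w n| ≤ 1)
    {H : Finset ℕ} {hm : ℕ} (hne : H.Nonempty) (hH : ∀ h ∈ H, h ≤ hm) {η : ℝ} (hη : 0 < η) :
    ∀ᶠ i : ℕ in atTop, ∀ x : SS,
      |AVL θ (PL hm (NN i) (Real.sqrt i)).toList (FF w H (NN i)) x| ≤ η := by
  set τ : ℕ → ℝ := fun p => min (θ p) (1 - θ p) with hτd
  have hτ : ∀ p, 0 ≤ τ p := fun p => le_min (hθ0 p) (by linarith [hθ1 p])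
  have hτ1 : ∀ p, τ p ≤ 1 := fun p => (min_le_left _ _).trans (hθ1 p)
  obtain ⟨h₀, hh₀⟩ := hne
  set ε := min (η / 16) (1/2) with hε
  have hε0 : 0 < ε := lt_min (by positivity) (by norm_num)
  have hV := tendsto_VVs hτ hτ1 hNN hmass hε0
  have hlogN : Tendsto (fun i : ℕ => Real.log (NN i)) atTop atTop := tendsto_logN.comp hNN
  have hlim : Tendsto (fun i : ℕ => 8 * ε + 4 * (CH h₀ + 1) / Real.log (NN i) +
      20 * (1 + CH h₀ / Real.log (NN i)) / VV (TPs ε NN i) τ +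
      Real.exp (-VV (TPs ε NN i) τ) * (1 + 1 / Real.log (NN i))) atTop (𝓝 (8 * ε)) := by
    have h1 : Tendsto (fun i : ℕ => 4 * (CH h₀ + 1) / Real.log (NN i)) atTop (𝓝 0) :=
      hlogN.const_div_atTop _
    have h2 : Tendsto (fun i : ℕ => 1 + CH h₀ / Real.log (NN i)) atTop (𝓝 1) := by
      have := (hlogN.const_div_atTop (CH h₀)).const_add 1
      simpa using this
    have h3 : Tendsto (fun i : ℕ => 20 * (1 + CH h₀ / Real.log (NN i)) / VV (TPs ε NN i) τ)
        atTop (𝓝 0) := (h2.const_mul 20).div_atTop hV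
    have h4 : Tendsto (fun i : ℕ => Real.exp (-VV (TPs ε NN i) τ) * (1 + 1 / Real.log (NN i)))
        atTop (𝓝 0) := by
      have h5 : Tendsto (fun i : ℕ => Real.exp (-VV (TPs ε NN i) τ)) atTop (𝓝 0) :=
        Real.tendsto_exp_neg_atTop_nhds_zero.comp hV
      have h6 : Tendsto (fun i : ℕ => 1 + 1 / Real.log (NN i)) atTop (𝓝 1) := by
        have := (hlogN.const_div_atTop 1).const_add 1
        simpa using this
      simpa using h5.mul h6
    have := ((h1.const_add (8 * ε)).add h3).add h4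
    simpa using this
  have hlt : 8 * ε < η := by
    have : ε ≤ η / 16 := min_le_left _ _
    linarith
  have hy : Tendsto (fun i : ℕ => Real.sqrt (i : ℝ)) atTop atTop :=
    Real.tendsto_sqrt_atTop.comp tendsto_natCast_atTop_atTop
  filter_upwards [hlim.eventually (eventually_le_nhds hlt), hNN.eventually_ge_atTop 2,
    hV.eventually_gt_atTop 0, hy.eventually_ge_atTop (2 * hm + 1)] with i h1 h2 h3 h4 x
  refine le_trans ?_ h1
  refine (AVL_FF_le hθ0 hθ1 hw h2 hh₀ hH (s := TPs ε NN i) ?_ x).trans ?_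
  · intro p hp
    rw [mem_TPs] at hp
    obtain ⟨⟨hp2, hpp, hp3⟩, hp4⟩ := hp
    constructor
    · unfold PL
      rw [Finset.mem_filter, Finset.mem_Icc]
      exact ⟨⟨hpp.pos, by omega⟩, hpp, hp3⟩
    · have h5 : (hm:ℝ) < p := by
        have : (0:ℝ) ≤ hm := Nat.cast_nonneg hm
        linarith
      exact_mod_cast h5
  · apply exp_avg hτ hτ1 h2 h3
    intro p hp
    rw [mem_TPs] at hp
    obtain ⟨⟨hp2, hpp, hp3⟩, hp4⟩ := hp
    have h5 : 2 * (hm:ℝ) + 1 < p := by linarith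
    have h6 : 2 * hm + 1 < p := by exact_mod_cast h5
    have h7 := hH h₀ hh₀
    exact ⟨hpp, by omega, by omega, hp2, hp4⟩

/-- almost surely the correlations are eventually small along the scales -/
lemma ae_eventually_small_seq {θ : ℕ → ℝ} (hθ : ∀ p, θ p = (ν p).real {-1})
    {w : ℕ → ℝ} (hw : ∀ n, |w n| ≤ 1) {H : Finset ℕ} (hne : H.Nonempty) {NN : ℕ → ℕ}
    (hNN : Tendsto NN atTop atTop)
    (hmass : Tendsto (fun i : ℕ => ∑ p ∈ PR (Real.sqrt i) (NN i), min (θ p) (1 - θ p) / (p : ℝ))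
      atTop atTop) {δ : ℝ} (hδ : 0 < δ) :
    ∀ᵐ x ∂(Measure.infinitePi ν), ∀ᶠ k : ℕ in atTop, |FF w H (NN k) x| ≤ 2 * δ := by
  have hθ0 : ∀ p, 0 ≤ θ p := fun p => by rw [hθ]; exact measureReal_nonneg
  have hθ1 : ∀ p, θ p ≤ 1 := fun p => by rw [hθ]; exact measureReal_le_one
  set hm := H.sup id with hmd
  have hH : ∀ h ∈ H, h ≤ hm := fun h hh => Finset.le_sup (f := id) hh
  have hc0 : (0:ℝ) < H.card := by exact_mod_cast hne.card_pos
  set a : ℝ := δ ^ 2 / (64 * H.card ^ 2) with had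
  have ha : 0 < a := by positivity
  set s : ℕ → Set SS := fun k => {x | δ ≤ |FF w H (NN k) x -
    AVL θ (PL hm (NN k) (Real.sqrt k)).toList (FF w H (NN k)) x|} with hs
  have hbound : ∀ᶠ k : ℕ in atTop, ‖(Measure.infinitePi ν).real (s k)‖ ≤ 2 * (1 / (k:ℝ)^2) := by
    have hy : Tendsto (fun k : ℕ => Real.sqrt (k : ℝ)) atTop atTop :=
      Real.tendsto_sqrt_atTop.comp tendsto_natCast_atTop_atTop
    have hlog : Tendsto (fun k : ℕ => Real.log (NN k)) atTop atTop := tendsto_logN.comp hNN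
    have hlit := (isLittleO_log_rpow_atTop (show (0:ℝ) < 1 / 2 by norm_num)).bound
      (c := a / 2) (by positivity)
    have hlit2 := (tendsto_natCast_atTop_atTop (R := ℝ)).eventually hlit
    filter_upwards [hy.eventually_ge_atTop (2 * hm + 1), hlog.eventually_ge_atTop (CH hm),
      hNN.eventually_ge_atTop 2, eventually_ge_atTop 1, hlit2] with k h1 h2 h3 h4 hl
    rw [Real.norm_of_nonneg measureReal_nonneg]
    have hm0 : (0:ℝ) ≤ hm := Nat.cast_nonneg hm
    have h5 := conc hθ hw hne h3 hH (y := Real.sqrt k) (ε := δ) (by linarith) (by linarith) h2 hδ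
    refine h5.trans ?_
    apply mul_le_mul_of_nonneg_left _ (by norm_num)
    have hk1 : (1:ℝ) ≤ k := by exact_mod_cast h4
    have hk0 : (0:ℝ) < k := by linarith
    have h7 : 1 / (k:ℝ)^2 = Real.exp (-(2 * Real.log k)) := by
      rw [Real.exp_neg, ← Real.log_rpow hk0, Real.exp_log (by positivity)]
      norm_num
    rw [h7]
    apply Real.exp_le_exp.mpr
    rw [neg_le_neg_iff]
    rw [Real.norm_of_nonneg (Real.log_nonneg hk1), Real.norm_of_nonneg (by positivity),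
      ← Real.sqrt_eq_rpow] at hl
    have h8 : δ ^ 2 * Real.sqrt k / (64 * H.card ^ 2) = a * Real.sqrt k := by
      rw [had]
      ring
    rw [h8]
    linarith
  have hsum : Summable fun k => (Measure.infinitePi ν).real (s k) :=
    Summable.of_norm_bounded_eventually_nat ((Real.summable_one_div_nat_pow.mpr
      (by norm_num : 1 < 2)).mul_left 2) hbound
  have hne_top : ∑' k, (Measure.infinitePi ν) (s k) ≠ ⊤ := by
    have h1 := hsum.tsum_ofReal_ne_top
    have h2 : (fun k => ENNReal.ofReal ((Measure.infinitePi ν).real (s k))) =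
        fun k => (Measure.infinitePi ν) (s k) := by
      funext k
      exact ofReal_measureReal
    rwa [h2] at h1
  have hBC := ae_eventually_notMem hne_top
  have hsmall := eventually_AVL_le_seq hθ0 hθ1 hNN hmass hw hne hH hδ
  filter_upwards [hBC] with x hx
  filter_upwards [hx, hsmall] with k h1 h2
  have h3 : |FF w H (NN k) x - AVL θ (PL hm (NN k) (Real.sqrt k)).toList (FF w H (NN k)) x| < δ := by
    by_contra hcon
    push Not at hcon
    exact h1 hcon
  have h4 := h2 x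
  calc |FF w H (NN k) x| = |(FF w H (NN k) x -
        AVL θ (PL hm (NN k) (Real.sqrt k)).toList (FF w H (NN k)) x) +
        AVL θ (PL hm (NN k) (Real.sqrt k)).toList (FF w H (NN k)) x| := by rw [sub_add_cancel]
    _ ≤ _ := abs_add_le _ _
    _ ≤ 2 * δ := by linarith

theorem ae_seq {θ : ℕ → ℝ} (hθ : ∀ p, θ p = (ν p).real {-1}) {w : ℕ → ℝ} (hw : ∀ n, |w n| ≤ 1)
    {H : Finset ℕ} (hne : H.Nonempty) {NN : ℕ → ℕ} (hNN : Tendsto NN atTop atTop)
    (hmass : Tendsto (fun i : ℕ => ∑ p ∈ PR (Real.sqrt i) (NN i), min (θ p) (1 - θ p) / (p : ℝ))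
      atTop atTop) :
    ∀ᵐ x ∂(Measure.infinitePi ν), Tendsto (fun i => FF w H (NN i) x) atTop (𝓝 0) := by
  have h1 : ∀ᵐ x ∂(Measure.infinitePi ν), ∀ j : ℕ, ∀ᶠ k : ℕ in atTop,
      |FF w H (NN k) x| ≤ 2 * (1 / ((j:ℝ) + 1)) :=
    ae_all_iff.mpr fun j => ae_eventually_small_seq hθ hw hne hNN hmass (by positivity)
  filter_upwards [h1] with x hx
  rw [Metric.tendsto_atTop]
  intro ε hε
  obtain ⟨j, hj⟩ := exists_nat_one_div_lt (show 0 < ε / 4 by positivity)
  obtain ⟨k0, hk0⟩ := eventually_atTop.mp (hx j)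
  refine ⟨k0, fun k hk => ?_⟩
  rw [dist_zero_right, Real.norm_eq_abs]
  have := hk0 k hk
  linarith

end Pool.Agent.Lib.P4a7640R
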