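import Mathlib
import Pool.Agent.Lib.P4a7640R.Base

/-!
# The multiplicative sign attached to a set of primes

Module P4R.Dfl (0.8 h).

* `dfl_multS`: `p ∣ m n ↔ p ∣ m ∨ p ∣ n`, and not both for coprime `m`, `n`.
* `dfl_prime`: the only prime of `D` dividing the prime `p` is `p`.
* `prodSeq_dfl`: exchange the products; for `p ∈ D` at most one `h ∈ H` has `p ∣ n + h`
  (all `h < p`), compare `prod_sQ` in `Lib/P4a7640L/Local.lean` and `prod_eq` in
  `Lib/P4a7640D/Compare.lean`; `sg (-1) = -1`, `uu H D n = (-1) ^ (D.filter ..).card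
  = ∏ p ∈ D, if (∃ h ∈ H, p ∣ n + h) then -1 else 1` (`Finset.prod_ite`, `Finset.prod_const`).
-/

open Finset

namespace Pool.Agent.Lib.P4a7640R

open Pool.Agent.Lib.P4a7640 Pool.Agent.Lib.P4a7640D

theorem dfl_multS {D : Finset ℕ} (hD : ∀ p ∈ D, p.Prime) : MultS (dfl D) := by
  intro m n _ _ hc
  unfold dfl
  rw [← Finset.prod_mul_distrib]
  refine Finset.prod_congr rfl fun p hp => ?_
  have hpp := hD p hp
  by_cases h1 : p ∣ m
  · have h2 : ¬ p ∣ n := by
      intro h2
      have h3 := Nat.dvd_gcd h1 h2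
      rw [hc] at h3
      exact hpp.one_lt.ne' (Nat.dvd_one.1 h3)
    rw [if_pos (h1.mul_right n), if_pos h1, if_neg h2, mul_one]
  · by_cases h2 : p ∣ n
    · rw [if_pos (h2.mul_left m), if_neg h1, if_pos h2, one_mul]
    · rw [if_neg (fun h => (hpp.dvd_mul.1 h).elim h1 h2), if_neg h1, if_neg h2, one_mul]

theorem dfl_prime {D : Finset ℕ} (hD : ∀ p ∈ D, p.Prime) {p : ℕ} (hp : p.Prime) :
    dfl D p = if p ∈ D then -1 else 1 := by
  classical
  unfold dfl
  have h1 : ∀ q ∈ D, (if q ∣ p then (-1 : ℤˣ) else 1) = if p = q then -1 else 1 := by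
    intro q hq
    by_cases h : p = q
    · rw [if_pos h, if_pos (by rw [h])]
    · rw [if_neg h, if_neg]
      intro h2
      exact h ((Nat.prime_dvd_prime_iff_eq (hD q hq) hp).1 h2).symm
  rw [Finset.prod_congr rfl h1, Finset.prod_ite_eq]

theorem prodSeq_dfl {H D : Finset ℕ} (hD : ∀ p ∈ D, p.Prime ∧ ∀ h ∈ H, h < p) (n : ℕ) :
    prodSeq (dfl D) H n = uu H D n := by
  classical
  unfold prodSeq dfl uu KK
  have h1 : ∀ h ∈ H, sg (∏ p ∈ D, if p ∣ n + h then (-1 : ℤˣ) else 1) =
      ∏ p ∈ D, if p ∣ n + h then (-1 : ℝ) else 1 := by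
    intro h _
    rw [sg_prod]
    refine Finset.prod_congr rfl fun p _ => ?_
    split_ifs
    · exact sg_neg_one
    · exact sg_one
  rw [Finset.prod_congr rfl h1, Finset.prod_comm, ← Finset.prod_const, Finset.prod_filter]
  refine Finset.prod_congr rfl fun p hp => ?_
  by_cases hex : ∃ h ∈ H, p ∣ n + h
  · rw [if_pos hex]
    obtain ⟨h, hh, hd⟩ := hex
    rw [Finset.prod_eq_single h]
    · rw [if_pos hd]
    · intro b hb hbh
      apply if_neg
      intro hd'
      apply hbh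
      have h1 := (hD p hp).2 h hh
      have h2 := (hD p hp).2 b hb
      have h3 : (n + b) ≡ (n + h) [MOD p] := by
        rw [Nat.ModEq, Nat.dvd_iff_mod_eq_zero.1 hd', Nat.dvd_iff_mod_eq_zero.1 hd]
      have h4 : b ≡ h [MOD p] := Nat.ModEq.add_left_cancel' n h3
      rw [Nat.ModEq, Nat.mod_eq_of_lt h1, Nat.mod_eq_of_lt h2] at h4
      exact h4
    · intro h'
      exact absurd hh h'
  · rw [if_neg hex]
    push Not at hex
    exact Finset.prod_eq_one fun h hh => if_neg (hex h hh)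

end Pool.Agent.Lib.P4a7640R
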