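import Mathlib
import Pool.Agent.Lib.P4a7640R.SieveP
import Pool.Agent.Lib.P4a7640D.LogSieve

/-!
# Logarithmic averages with a periodic weight

Module P4R.LogSieveP (1.2 h).  Adaptation of `log_sieve` in `Lib/P4a7640D/LogSieve.lean`
(copy the proof), with `sieve_per` in place of `sieve` and `u n = w n * uu H D n` in `abel_le`.
The only new point: the extra term `q * x ^ (3/4)`; take `N₀` depending on `q` so large that for
`x > N ^ θ` (`θ = η/8`, the cut of the Abel summation) one has `q * x ^ (3/4) ≤ x * η / 16`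
(`x ^ (1/4) ≥ N ^ (θ/4) → ∞`).  `z`, `c`, `A` do not depend on `q`.
-/

open Finset

namespace Pool.Agent.Lib.P4a7640R

open Pool.Agent.Lib.P4a7640 Pool.Agent.Lib.P4a7640D

open LogSieveAux in
theorem log_sieve_per (H : Finset ℕ) (hne : H.Nonempty) (η : ℝ) (hη : 0 < η) :
    ∃ (z c : ℕ) (A : ℝ), 0 < A ∧ ∀ q : ℕ, 0 < q → ∃ N₀ : ℕ, ∀ w : ℕ → ℝ, (∀ n, |w n| ≤ 1) →
      (∀ n, w (n + q) = w n) → ∀ N ≥ N₀, ∀ D : Finset ℕ,
      (∀ p ∈ D, p.Prime ∧ z ≤ p ∧ q.Coprime p ∧ p ^ (2 ^ c) ≤ N) → A ≤ ∑ p ∈ D, (1:ℝ) / p →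
      |LA (fun n => w n * uu H D n) N| ≤ η := by
  obtain ⟨z, R, hS⟩ := sieve_per H hne (η / 8) (by positivity)
  set θ : ℝ := η / 8 with hθ
  have hθ0 : 0 < θ := by positivity
  obtain ⟨c, hc⟩ : ∃ c : ℕ, 8 * ((R:ℝ) + 2) ≤ θ * 2 ^ c := by
    obtain ⟨c, hc⟩ := pow_unbounded_of_one_lt (8 * ((R:ℝ) + 2) / θ) (show (1:ℝ) < 2 by norm_num)
    refine ⟨c, ?_⟩
    rw [div_lt_iff₀ hθ0] at hc
    linarith
  set A : ℝ := 1 + |Real.log (η / 16)| with hA
  have hA0 : 0 < A := by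
    have := abs_nonneg (Real.log (η / 16))
    linarith
  have hexp : Real.exp (-(2 * A)) ≤ η / 16 := by
    calc Real.exp (-(2 * A)) ≤ Real.exp (Real.log (η / 16)) := by
          apply Real.exp_le_exp.2
          have h1 := neg_abs_le (Real.log (η / 16))
          have h2 := abs_nonneg (Real.log (η / 16))
          rw [hA]
          linarith
      _ = η / 16 := Real.exp_log (by positivity)
  refine ⟨z, c, A, hA0, fun q hq => ?_⟩
  obtain ⟨N₀, hN₀⟩ : ∃ N₀ : ℕ, ∀ N ≥ N₀, 4 / η + 1 ≤ Real.log N ∧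
      16 * (q:ℝ) / η ≤ (N:ℝ) ^ (θ / 4) := by
    have h1 := (Real.tendsto_log_atTop.comp tendsto_natCast_atTop_atTop).eventually_ge_atTop
      (4 / η + 1)
    have h2 := ((tendsto_rpow_atTop (show 0 < θ / 4 by positivity)).comp
      tendsto_natCast_atTop_atTop).eventually_ge_atTop (16 * (q:ℝ) / η)
    exact Filter.eventually_atTop.1 (h1.and h2)
  refine ⟨N₀ + 1, fun w hw1 hwq N hN D hD hDA => ?_⟩
  obtain ⟨hlog, hqN⟩ := hN₀ N (by omega)
  have hη4 : 0 < 4 / η := by positivity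
  have hlog0 : 0 < Real.log N := by linarith
  have hN1 : 1 ≤ N := by omega
  have hNr : (0:ℝ) < N := by exact_mod_cast hN1
  have hDne : D.Nonempty := by
    rw [Finset.nonempty_iff_ne_empty]
    rintro rfl
    simp at hDA
    linarith
  set l := Nat.log 2 N with hl
  set b := Nat.log 2 l with hb
  have hpl : ∀ p ∈ D, 1 ≤ Nat.log 2 p ∧ Nat.log 2 p * 2 ^ c ≤ l := by
    intro p hp
    obtain ⟨h1, _, _, h3⟩ := hD p hp
    refine ⟨Nat.log_pos (by norm_num) h1.two_le, ?_⟩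
    rw [hl]
    apply Nat.le_log_of_pow_le (by norm_num)
    refine le_trans ?_ h3
    rw [pow_mul]
    exact Nat.pow_le_pow_left (Nat.pow_log_le_self 2 h1.ne_zero) _
  have hlb : l < 2 ^ (b + 1) := Nat.lt_pow_succ_log_self (by norm_num) l
  have hcb : c ≤ b := by
    obtain ⟨p, hp⟩ := hDne
    obtain ⟨h1, h2⟩ := hpl p hp
    have h3 : 2 ^ c < 2 ^ (b + 1) := by
      refine lt_of_le_of_lt ?_ hlb
      calc 2 ^ c = 1 * 2 ^ c := by ring
        _ ≤ Nat.log 2 p * 2 ^ c := Nat.mul_le_mul_right _ h1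
        _ ≤ l := h2
    have := (Nat.pow_lt_pow_iff_right (by norm_num : 1 < 2)).1 h3
    omega
  have hl0 : l ≠ 0 := by
    obtain ⟨p, hp⟩ := hDne
    obtain ⟨h1, h2⟩ := hpl p hp
    have : 0 < Nat.log 2 p * 2 ^ c := by positivity
    omega
  obtain ⟨J, hJ⟩ : ∃ J, b + 1 = J + c := ⟨b + 1 - c, by omega⟩
  have hbe : ∀ p ∈ D, be p < J := by
    intro p hp
    obtain ⟨h1, h2⟩ := hpl p hp
    unfold be
    apply Nat.log_lt_of_lt_pow (by omega)
    have h3 : Nat.log 2 p * 2 ^ c < 2 ^ J * 2 ^ c := by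
      rw [← pow_add, ← hJ]
      exact lt_of_le_of_lt h2 hlb
    exact Nat.lt_of_mul_lt_mul_right h3
  have hlev : (2 ^ (J + 2) * (R + 2) : ℝ) ≤ θ * l := by
    have h1 : ((2:ℝ) ^ b) ≤ l := by
      exact_mod_cast Nat.pow_log_le_self 2 hl0
    have h2 : ((2:ℝ) ^ (J + 2) * (R + 2)) * 2 ^ c = 8 * (R + 2) * 2 ^ b := by
      have : (2:ℝ) ^ (J + 2) * 2 ^ c = 8 * 2 ^ b := by
        rw [← pow_add, show J + 2 + c = b + 3 by omega, pow_add]
        norm_num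
        ring
      calc ((2:ℝ) ^ (J + 2) * (R + 2)) * 2 ^ c = ((2:ℝ) ^ (J + 2) * 2 ^ c) * (R + 2) := by ring
        _ = 8 * (R + 2) * 2 ^ b := by rw [this]; ring
    have h3 : ((2:ℝ) ^ (J + 2) * (R + 2)) * 2 ^ c ≤ (θ * l) * 2 ^ c := by
      rw [h2]
      calc 8 * ((R:ℝ) + 2) * 2 ^ b ≤ (θ * 2 ^ c) * l :=
            mul_le_mul hc h1 (by positivity) (by positivity)
        _ = (θ * l) * 2 ^ c := by ring
    exact le_of_mul_le_mul_right h3 (by positivity)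
  have hNθ : (2:ℝ) ^ (2 ^ (J + 2) * (R + 2)) ≤ (N:ℝ) ^ θ := by
    have h1 : ((2:ℝ) ^ l) ≤ N := by
      exact_mod_cast Nat.pow_log_le_self 2 (by omega : N ≠ 0)
    calc (2:ℝ) ^ (2 ^ (J + 2) * (R + 2)) = (2:ℝ) ^ (((2 ^ (J + 2) * (R + 2) : ℕ)) : ℝ) := by
          rw [Real.rpow_natCast]
      _ ≤ (2:ℝ) ^ (θ * l) := by
          apply Real.rpow_le_rpow_of_exponent_le (by norm_num)
          push_cast
          exact hlev
      _ = ((2:ℝ) ^ l) ^ θ := by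
          rw [mul_comm, Real.rpow_mul (by norm_num), Real.rpow_natCast]
      _ ≤ (N:ℝ) ^ θ := Real.rpow_le_rpow (by positivity) h1 hθ0.le
  have hle1 : ∀ n, |∑ k ∈ Icc 1 n, w k * uu H D k| ≤ n := by
    intro n
    calc |∑ k ∈ Icc 1 n, w k * uu H D k| ≤ ∑ k ∈ Icc 1 n, |w k * uu H D k| :=
          Finset.abs_sum_le_sum_abs _ _
      _ ≤ ∑ k ∈ Icc 1 n, (1:ℝ) := by
          refine Finset.sum_le_sum fun k _ => ?_
          rw [abs_mul, abs_uu, mul_one]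
          exact hw1 k
      _ = n := by simp
  have hcard : (1:ℝ) ≤ H.card := by
    exact_mod_cast Finset.card_pos.2 hne
  have hle2 : ∀ n, ⌊(N:ℝ) ^ θ⌋₊ < n → n ≤ N →
      |∑ k ∈ Icc 1 n, w k * uu H D k| ≤ n * (η / 4) := by
    intro n hn _
    have h1 : (N:ℝ) ^ θ < n := (Nat.floor_lt (by positivity)).1 hn
    have h2 : 2 ^ (2 ^ (J + 2) * (R + 2)) ≤ n := by
      have : (2:ℝ) ^ (2 ^ (J + 2) * (R + 2)) ≤ n := hNθ.trans h1.le
      exact_mod_cast this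
    have h3 := hS q w hq hw1 hwq D J n
      (fun p hp => ⟨(hD p hp).1, (hD p hp).2.1, (hD p hp).2.2.1, hbe p hp⟩) h2
    refine h3.trans ?_
    have hn0 : (0:ℝ) < n := lt_of_le_of_lt (by positivity) h1
    have hq4 : (q:ℝ) * (n:ℝ) ^ ((3:ℝ) / 4) ≤ n * (η / 16) := by
      have e1 : (n:ℝ) = (n:ℝ) ^ ((3:ℝ) / 4) * (n:ℝ) ^ ((1:ℝ) / 4) := by
        rw [← Real.rpow_add hn0]
        norm_num
      have e2 : (N:ℝ) ^ (θ / 4) ≤ (n:ℝ) ^ ((1:ℝ) / 4) := by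
        have : (N:ℝ) ^ (θ / 4) = ((N:ℝ) ^ θ) ^ ((1:ℝ) / 4) := by
          rw [← Real.rpow_mul hNr.le]
          congr 1
          ring
        rw [this]
        exact Real.rpow_le_rpow (by positivity) h1.le (by norm_num)
      have e3 : (q:ℝ) ≤ (η / 16) * (n:ℝ) ^ ((1:ℝ) / 4) := by
        have e4 := hqN.trans e2
        rw [div_le_iff₀ hη] at e4
        linarith
      have e5 : 0 ≤ (n:ℝ) ^ ((3:ℝ) / 4) := by positivity
      calc (q:ℝ) * (n:ℝ) ^ ((3:ℝ) / 4)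
          ≤ ((η / 16) * (n:ℝ) ^ ((1:ℝ) / 4)) * (n:ℝ) ^ ((3:ℝ) / 4) :=
            mul_le_mul_of_nonneg_right e3 e5
        _ = ((n:ℝ) ^ ((3:ℝ) / 4) * (n:ℝ) ^ ((1:ℝ) / 4)) * (η / 16) := by ring
        _ = n * (η / 16) := by rw [← e1]
    suffices hmain : (n:ℝ) * (Real.exp (-(2 * H.card * ∑ p ∈ D, (1:ℝ) / p)) + θ) ≤
        n * (3 * η / 16) by
      have : (n:ℝ) * (3 * η / 16) + n * (η / 16) = n * (η / 4) := by ring
      linarith
    apply mul_le_mul_of_nonneg_left _ (Nat.cast_nonneg n)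
    have h4 : Real.exp (-(2 * H.card * ∑ p ∈ D, (1:ℝ) / p)) ≤ Real.exp (-(2 * A)) := by
      apply Real.exp_le_exp.2
      have h5 : (1:ℝ) * A ≤ H.card * ∑ p ∈ D, (1:ℝ) / p :=
        mul_le_mul hcard hDA hA0.le (by positivity)
      nlinarith
    linarith
  have hmain := abel_le (fun n => w n * uu H D n) N ⌊(N:ℝ) ^ θ⌋₊ (η / 4) (by positivity) hle1 hle2
  have hfl : Real.log (⌊(N:ℝ) ^ θ⌋₊ : ℝ) ≤ θ * Real.log N := by
    have h1 : (1:ℝ) ≤ (N:ℝ) ^ θ := Real.one_le_rpow (by exact_mod_cast hN1) hθ0.le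
    have h2 : 1 ≤ ⌊(N:ℝ) ^ θ⌋₊ := (Nat.one_le_floor_iff _).2 h1
    rw [← Real.log_rpow hNr]
    apply Real.log_le_log (by exact_mod_cast h2)
    exact Nat.floor_le (by positivity)
  unfold LA
  rw [abs_div, abs_of_pos hlog0, div_le_iff₀ hlog0]
  refine hmain.trans ?_
  have h6 : η * (4 / η + 1) ≤ η * Real.log N := mul_le_mul_of_nonneg_left hlog hη.le
  have h7 : η * (4 / η + 1) = 4 + η := by field_simp
  rw [hθ] at hfl
  nlinarith

end Pool.Agent.Lib.P4a7640R
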