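import Mathlib
import Pool.Agent.Lib.P4a7640R.LogSieveP
import Pool.Agent.Lib.P4a7640R.Dfl
import Pool.Agent.Lib.P4a7640.Stable

/-!
# Deterministic smallness at a scale with a small top window

Module P4R.DetScale (1.5 h).  (`log_sieve_per`, `Dfl` are black boxes.)

PROOF.  Take `z`, `c`, `A` from `log_sieve_per H (η/2)` and a fixed `Z ≥ z`, `Z > sup H`, `Z ≥ 1`, so
large that `∑ j ∈ H, 2 * (4 * (Z * (1/2)^Z + 1/Z)) ≤ η/8`; put `κ = η / (32 * H.card)`,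
`q = QQ Z Z = (Z!)^Z`.  Given `F`, for large `N` let
`D = {p ≤ N prime : Z < p, p^(2^c) ≤ N, F p = -1}`, `g = dfl D` and use
`LA_diff_le` (file `Lib/P4a7640/Stable.lean`) with `f = F`, this `g`, `χ = 1` (mod 1), `y = m = Z`:
`LA (prodSeq F H) N` differs from `LA (w * prodSeq g H) N`, `w n = ∏ j ∈ H, PP (F g) 1 Z Z (n+j)`, by
at most `∑ j ∈ H, 2 * ((1 + 3/log N) * EB B Z Z N + 3 j / log N)`, where `B p` says
`sgC (F p * g p) ≠ 1`, so for a prime `p ∈ (Z, N]`: `F p = -1` and `p ∉ D`, that is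
`p ∈ TOPc c N`, `F p = -1`.  By `EB_le`: `EB B Z Z N ≤ (Z (1/2)^Z + 1/Z) + PS B Z N` and
`PS B Z N ≤ FM F (TOPc c N) ≤ κ`.  For large `N` the difference is `≤ η/2`.
`prodSeq g H n = uu H D n` by `prodSeq_dfl`, `w` has period `q` (`prod_PP_periodic`, with modulus
`1 * QQ Z Z`) and `|w| ≤ 1` (`abs_prod_PP`); primes `p > Z` are coprime to `q`.
Finally `∑ p ∈ D, 1/p ≥ FM F (primes ≤ N) - FM F (TOPc c N) - ∑_{p ≤ Z} 1/p ≥ A` for large `N`.
-/

open Finset Filter Topology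

namespace Pool.Agent.Lib.P4a7640R

open Pool.Agent.Lib.P4a7640 Pool.Agent.Lib.P4a7640D

lemma ds_pick (ε : ℝ) (hε : 0 < ε) (z₀ : ℕ) :
    ∃ Z : ℕ, z₀ ≤ Z ∧ 1 ≤ Z ∧ (Z:ℝ) * (1 / 2) ^ Z + 1 / (Z:ℝ) ≤ ε := by
  have l2 : Tendsto (fun Z : ℕ => (Z : ℝ) * (1 / 2) ^ Z) atTop (𝓝 0) :=
    tendsto_self_mul_const_pow_of_lt_one (r := 1 / 2) (by norm_num) (by norm_num)
  have l3 : Tendsto (fun Z : ℕ => 1 / (Z : ℝ)) atTop (𝓝 0) := tendsto_one_div_atTop_nhds_zero_nat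
  have l4 := l2.add l3
  rw [add_zero] at l4
  obtain ⟨Z, hZ⟩ := ((l4.eventually (eventually_le_nhds hε)).and
    (eventually_ge_atTop (max z₀ 1))).exists
  exact ⟨Z, (le_max_left _ _).trans hZ.2, (le_max_right _ _).trans hZ.2, hZ.1⟩

lemma ds_coprime {Z p : ℕ} (hp : p.Prime) (hZ : Z < p) : (1 * QQ Z Z).Coprime p := by
  rw [one_mul, QQ]
  apply Nat.Coprime.pow_left
  rw [Nat.coprime_comm]
  exact (Nat.Prime.coprime_iff_not_dvd hp).mpr
    fun h => absurd (hp.dvd_factorial.mp h) (not_le.mpr hZ)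

/-- the primes with sign `-1` in the sifting range -/
def DSs (F : ℕ → ℤˣ) (c Z N : ℕ) : Finset ℕ :=
  (Icc 1 N).filter fun p => p.Prime ∧ Z < p ∧ p ^ (2 ^ c) ≤ N ∧ F p = -1

lemma mem_DSs {F : ℕ → ℤˣ} {c Z N p : ℕ} :
    p ∈ DSs F c Z N ↔ p ≤ N ∧ p.Prime ∧ Z < p ∧ p ^ (2 ^ c) ≤ N ∧ F p = -1 := by
  unfold DSs
  rw [mem_filter, mem_Icc]
  constructor
  · rintro ⟨⟨_, h2⟩, h3⟩
    exact ⟨h2, h3⟩
  · rintro ⟨h2, h3⟩
    exact ⟨⟨h3.1.pos, h2⟩, h3⟩

lemma ds_PS_le (F : ℕ → ℤˣ) (c Z N : ℕ) :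
    PS (fun p => sgC (F p * dfl (DSs F c Z N) p) ≠ (1 : DirichletCharacter ℂ 1) (p : ZMod 1)) Z N
      ≤ FM F (TOPc c N) := by
  classical
  unfold PS
  have key : ∀ p ∈ (Finset.Ioc Z N).filter (fun p => p.Prime ∧
      sgC (F p * dfl (DSs F c Z N) p) ≠ (1 : DirichletCharacter ℂ 1) (p : ZMod 1)),
      p ∈ TOPc c N ∧ F p = -1 := by
    intro p hp
    obtain ⟨hp1, hpp, hne⟩ := mem_filter.mp hp
    obtain ⟨hZp, hpN⟩ := mem_Ioc.mp hp1
    rw [dfl_prime (fun p hp => (mem_DSs.mp hp).2.1) hpp] at hne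
    have hone : (1 : DirichletCharacter ℂ 1) (p : ZMod 1) = 1 := by
      apply MulChar.one_apply
      exact isUnit_of_subsingleton _
    rw [hone] at hne
    have hF : F p = -1 ∧ p ∉ DSs F c Z N := by
      by_cases hD : p ∈ DSs F c Z N
      · exfalso
        apply hne
        rw [if_pos hD, (mem_DSs.mp hD).2.2.2.2]
        simp [sgC]
      · rw [if_neg hD, mul_one] at hne
        refine ⟨?_, hD⟩
        rcases Int.units_eq_one_or (F p) with h | h
        · exfalso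
          apply hne
          rw [h]
          simp [sgC]
        · exact h
    refine ⟨mem_TOPc.mpr ⟨hpN, hpp, ?_⟩, hF.1⟩
    by_contra hcon
    exact hF.2 (mem_DSs.mpr ⟨hpN, hpp, hZp, not_lt.mp hcon, hF.1⟩)
  refine le_trans (le_of_eq ?_) (FM_mono F fun p hp => (key p hp).1)
  unfold FM
  refine sum_congr (by ext p; simp only [mem_filter]) fun p hp => ?_
  rw [if_pos (key p hp).2]

lemma ds_FM_union (F : ℕ → ℤˣ) (s t : Finset ℕ) : FM F (s ∪ t) ≤ FM F s + FM F t := by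
  unfold FM
  have h := sum_union_inter (s₁ := s) (s₂ := t) (f := fun p => if F p = -1 then (1:ℝ) / p else 0)
  have h2 : 0 ≤ ∑ p ∈ s ∩ t, (if F p = -1 then (1:ℝ) / p else 0) := FM_nonneg F (s ∩ t)
  linarith

lemma ds_FM_Icc (F : ℕ → ℤˣ) (Z : ℕ) : FM F (Icc 1 Z) ≤ Z := by
  unfold FM
  calc ∑ p ∈ Icc 1 Z, (if F p = -1 then (1:ℝ) / p else 0) ≤ ∑ p ∈ Icc 1 Z, (1:ℝ) := by
        refine sum_le_sum fun p hp => ?_
        have h1 : (1:ℝ) ≤ p := by exact_mod_cast (mem_Icc.mp hp).1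
        split_ifs
        · exact div_le_one_of_le₀ h1 (by positivity)
        · exact zero_le_one
    _ = Z := by simp

lemma ds_mass (F : ℕ → ℤˣ) (c Z N : ℕ) :
    FM F ((Icc 1 N).filter Nat.Prime) ≤
      ∑ p ∈ DSs F c Z N, (1:ℝ) / p + FM F (TOPc c N) + Z := by
  have h1 : FM F ((Icc 1 N).filter Nat.Prime) =
      FM F (((Icc 1 N).filter Nat.Prime).filter fun p => F p = -1) := by
    unfold FM
    rw [sum_filter (s := (Icc 1 N).filter Nat.Prime)]
    exact sum_congr rfl fun p _ => by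
      by_cases h : F p = -1
      · rw [if_pos h, if_pos h]
      · rw [if_neg h, if_neg h]
  have h2 : (((Icc 1 N).filter Nat.Prime).filter fun p => F p = -1) ⊆
      (DSs F c Z N ∪ TOPc c N) ∪ Icc 1 Z := by
    intro p hp
    obtain ⟨hp1, hF⟩ := mem_filter.mp hp
    obtain ⟨hp2, hpp⟩ := mem_filter.mp hp1
    obtain ⟨h3, h4⟩ := mem_Icc.mp hp2
    by_cases hZ : p ≤ Z
    · exact mem_union_right _ (mem_Icc.mpr ⟨h3, hZ⟩)
    · apply mem_union_left
      by_cases hN : p ^ (2 ^ c) ≤ N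
      · exact mem_union_left _ (mem_DSs.mpr ⟨h4, hpp, not_le.mp hZ, hN, hF⟩)
      · exact mem_union_right _ (mem_TOPc.mpr ⟨h4, hpp, not_le.mp hN⟩)
  have h3 : FM F (DSs F c Z N) = ∑ p ∈ DSs F c Z N, (1:ℝ) / p := by
    unfold FM
    exact sum_congr rfl fun p hp => by rw [if_pos (mem_DSs.mp hp).2.2.2.2]
  have h4 := FM_mono F h2
  have h5 := ds_FM_union F (DSs F c Z N ∪ TOPc c N) (Icc 1 Z)
  have h6 := ds_FM_union F (DSs F c Z N) (TOPc c N)
  have h7 := ds_FM_Icc F Z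
  rw [h1]
  linarith

theorem det_scale (H : Finset ℕ) (hne : H.Nonempty) (η : ℝ) (hη : 0 < η) :
    ∃ (c : ℕ) (κ : ℝ), 0 < κ ∧ ∀ F : ℕ → ℤˣ, MultS F → DivS F → ∀ᶠ N : ℕ in atTop,
      FM F (TOPc c N) ≤ κ → |LA (prodSeq F H) N| ≤ η := by
  obtain ⟨z, c, A, hA, hmain⟩ := log_sieve_per H hne (η / 2) (half_pos hη)
  have hcard : (0:ℝ) < H.card := by exact_mod_cast hne.card_pos
  set κ : ℝ := η / (64 * H.card) with hκ
  have hκ0 : 0 < κ := by positivity
  obtain ⟨Z, hZz, hZ1, hZ⟩ := ds_pick κ hκ0 (max z (H.sup id + 1))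
  have hZ2 : z ≤ Z := (le_max_left _ _).trans hZz
  have hZ3 : ∀ h ∈ H, h < Z := by
    intro h hh
    have h1 : id h ≤ H.sup id := Finset.le_sup (f := id) hh
    have h2 : H.sup id + 1 ≤ Z := (le_max_right _ _).trans hZz
    simp only [id] at h1
    omega
  refine ⟨c, κ, hκ0, ?_⟩
  intro F hF hdiv
  obtain ⟨N₀, hN₀⟩ := hmain (1 * QQ Z Z) (Nat.mul_pos one_pos (QQ_pos Z Z))
  have hlog3 : Tendsto (fun N : ℕ => 3 / Real.log N) atTop (𝓝 0) :=
    tendsto_logN.const_div_atTop 3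
  have hlogj : ∀ j ∈ H, ∀ᶠ N : ℕ in atTop, 3 * (j:ℝ) / Real.log N ≤ 4 * κ := by
    intro j _
    have h1 : Tendsto (fun N : ℕ => 3 * (j:ℝ) / Real.log N) atTop (𝓝 0) :=
      tendsto_logN.const_div_atTop _
    exact h1.eventually (eventually_le_nhds (by positivity))
  have hlogj' : ∀ᶠ N : ℕ in atTop, ∀ j ∈ H, 3 * (j:ℝ) / Real.log N ≤ 4 * κ :=
    (eventually_all_finset H).mpr hlogj
  filter_upwards [eventually_ge_atTop (max N₀ (max 2 Z)),
    hlog3.eventually (eventually_le_nhds (zero_lt_one)), hlogj',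
    hdiv.eventually (eventually_ge_atTop (A + κ + Z))] with N hN h3 hj hm htop
  have hNN : N₀ ≤ N := (le_max_left _ _).trans hN
  have hN2 : 2 ≤ N := (le_max_left _ _).trans ((le_max_right _ _).trans hN)
  have hNZ : Z ≤ N := (le_max_right _ _).trans ((le_max_right _ _).trans hN)
  set D := DSs F c Z N with hD
  have hDp : ∀ p ∈ D, p.Prime := fun p hp => (mem_DSs.mp hp).2.1
  set g := dfl D with hg
  have hgm : MultS g := dfl_multS hDp
  have hdiff := LA_diff_le (hF.mul hgm) (1 : DirichletCharacter ℂ 1) Z Z H hN2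
  have hEB := EB_le (fun p => sgC (F p * g p) ≠ (1 : DirichletCharacter ℂ 1) (p : ZMod 1))
    hZ1 hNZ
  have hPS := ds_PS_le F c Z N
  have hEB2 : EB (fun p => sgC (F p * g p) ≠ (1 : DirichletCharacter ℂ 1) (p : ZMod 1)) Z Z N
      ≤ 2 * κ := by
    have : PS (fun p => sgC (F p * g p) ≠ (1 : DirichletCharacter ℂ 1) (p : ZMod 1)) Z N
      ≤ κ := hPS.trans htop
    linarith
  have hmass : A ≤ ∑ p ∈ D, (1:ℝ) / p := by
    have := ds_mass F c Z N
    linarith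
  have hw := hN₀ (fun n => ∏ j ∈ H, PP (fun n => F n * g n) (1 : DirichletCharacter ℂ 1) Z Z (n + j))
    (fun n => abs_prod_PP _ _ Z Z H n) (fun n => prod_PP_periodic _ _ Z Z H n) N hNN D
    (fun p hp => ⟨hDp p hp, hZ2.trans (mem_DSs.mp hp).2.2.1.le,
      ds_coprime (hDp p hp) (mem_DSs.mp hp).2.2.1, (mem_DSs.mp hp).2.2.2.1⟩) hmass
  have hfun : (fun n => (∏ j ∈ H, PP (fun n => F n * g n) (1 : DirichletCharacter ℂ 1) Z Z (n + j)) *
      prodSeq g H n) = (fun n => (∏ j ∈ H, PP (fun n => F n * g n)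
        (1 : DirichletCharacter ℂ 1) Z Z (n + j)) * uu H D n) := by
    funext n
    rw [hg, prodSeq_dfl (fun p hp => ⟨hDp p hp, fun h hh =>
      (hZ3 h hh).trans (mem_DSs.mp hp).2.2.1⟩) n]
  rw [hfun] at hdiff
  have hlogN : 0 < Real.log N := Real.log_pos (by exact_mod_cast hN2)
  have hsum : ∑ j ∈ H, 2 * ((1 + 3 / Real.log N) *
        EB (fun p => sgC (F p * g p) ≠ (1 : DirichletCharacter ℂ 1) (p : ZMod 1)) Z Z N +
          3 * (j:ℝ) / Real.log N) ≤ η / 2 := by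
    calc _ ≤ ∑ j ∈ H, (16 * κ) := by
          refine sum_le_sum fun j hjH => ?_
          have h4 := hj j hjH
          have h5 : (1 + 3 / Real.log N) *
            EB (fun p => sgC (F p * g p) ≠ (1 : DirichletCharacter ℂ 1) (p : ZMod 1)) Z Z N
              ≤ 2 * (2 * κ) := by
            have h6 : 0 ≤ 1 + 3 / Real.log N := by positivity
            calc _ ≤ (1 + 3 / Real.log N) * (2 * κ) := mul_le_mul_of_nonneg_left hEB2 h6
              _ ≤ 2 * (2 * κ) := mul_le_mul_of_nonneg_right (by linarith) (by positivity)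
          linarith
      _ = 16 * κ * H.card := by rw [sum_const, nsmul_eq_mul]; ring
      _ = η / 4 := by rw [hκ]; field_simp; norm_num
      _ ≤ η / 2 := by linarith
  have h7 := abs_sub_abs_le_abs_sub (LA (prodSeq F H) N)
      (LA (fun n => (∏ j ∈ H, PP (fun n => F n * g n) (1 : DirichletCharacter ℂ 1) Z Z (n + j)) *
        uu H D n) N)
  linarith

end Pool.Agent.Lib.P4a7640R
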