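import Mathlib
import Pool.Agent.Lib.P4a7640R.Base
import Pool.Agent.Lib.P4a7640.Resample
import Pool.Agent.Lib.P4a7640.Avg

/-!
# Divergence and convergence of the random mass

Module P4R.FlipDiv (1.2 h).

* `ae_div`: `X_N = FM x (primes ≤ N)` has mean `m_N = ∑ θ p / p → ∞`; by `bounded_differences`
  `P(|X_N - m_N| ≥ m_N / 2) ≤ 2 exp (-m_N² / 16)`. Borel-Cantelli along scales with `m_N ≥ 16 (k+1)`,
  and monotonicity in `N`, give `X_N → ∞` almost surely.
* `ae_conv`: if `∑ θ p / p` is bounded by `C` (partial sums), then the increasing events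
  `X_N > C + t` all have probability `≤ 2 exp (-t² / 4)`, hence so has their union.
-/

open MeasureTheory ProbabilityTheory Filter Topology Finset

namespace Pool.Agent.Lib.P4a7640R

open Pool.Agent.Lib.P4a7640

variable {ν : ℕ → Measure ℤˣ} [∀ p, IsProbabilityMeasure (ν p)]

lemma measurable_FM (s : Finset ℕ) : Measurable fun x : SS => FM x s := by
  unfold FM
  refine Finset.measurable_fun_sum s fun p _ => ?_
  refine Measurable.ite ?_ measurable_const measurable_const
  exact measurableSet_eq_fun (measurable_pi_apply p) measurable_const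

lemma FM_le (x : SS) (s : Finset ℕ) : FM x s ≤ ∑ p ∈ s, (1 : ℝ) / p := by
  unfold FM
  refine sum_le_sum fun p _ => ?_
  split_ifs
  · exact le_rfl
  · positivity

lemma FM_insert (x : SS) {p : ℕ} {s : Finset ℕ} (hp : p ∉ s) :
    FM x (insert p s) = (if x p = -1 then (1 : ℝ) / p else 0) + FM x s := by
  unfold FM
  rw [Finset.sum_insert hp]

lemma FM_update {x : SS} {p : ℕ} {s : Finset ℕ} (hp : p ∉ s) (a : ℤˣ) :
    FM (Function.update x p a) s = FM x s :=
  FM_congr fun q hq => Function.update_of_ne (by rintro rfl; exact hp hq) _ _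

lemma one_ne_neg_one_units : (1 : ℤˣ) ≠ -1 := by decide

/-- the conditional mean of the random mass -/
lemma AVL_FM (θ : ℕ → ℝ) (L : List ℕ) : L.Nodup → ∀ (K : ℝ) (x : SS),
    AVL θ L (fun x => FM x L.toFinset + K) x = ∑ p ∈ L.toFinset, θ p / (p : ℝ) + K := by
  induction L with
  | nil =>
    intro _ K x
    simp [AVL, FM]
  | cons p L ih =>
    intro hnd K x
    rw [List.nodup_cons] at hnd
    have hp : p ∉ L.toFinset := by
      rw [List.mem_toFinset]
      exact hnd.1
    have h1 : AV θ p (fun x => FM x (p :: L).toFinset + K) =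
        fun x => FM x L.toFinset + (θ p / (p : ℝ) + K) := by
      funext x
      unfold AV
      simp only [List.toFinset_cons, FM_insert _ hp, FM_update hp, Function.update_self,
        if_neg one_ne_neg_one_units, if_true]
      ring
    change AVL θ L (AV θ p (fun x => FM x (p :: L).toFinset + K)) x = _
    rw [h1, ih hnd.2, List.toFinset_cons, Finset.sum_insert hp]
    ring

/-- concentration of the random mass -/
lemma FM_conc {θ : ℕ → ℝ} (hθ : ∀ p, θ p = (ν p).real {-1}) (s : Finset ℕ) {V ε : ℝ}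
    (hV : ∑ p ∈ s, ((1 : ℝ) / p) ^ 2 ≤ V) (hV0 : 0 < V) (hε : 0 < ε) :
    (Measure.infinitePi ν).real {x | ε ≤ |FM x s - ∑ p ∈ s, θ p / (p : ℝ)|} ≤
      2 * Real.exp (-(ε ^ 2 / (2 * V))) := by
  have hK : ∀ x : SS, |FM x s| ≤ ∑ p ∈ s, (1 : ℝ) / p := fun x => by
    rw [abs_of_nonneg (FM_nonneg x s)]
    exact FM_le x s
  have hBD : ∀ p ∈ s.toList, BD p (fun x : SS => FM x s) ((fun p : ℕ => (1 : ℝ) / p) p) := by
    intro p hp x
    rw [Finset.mem_toList] at hp
    have hps : p ∉ s.erase p := Finset.notMem_erase p s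
    have h1 : insert p (s.erase p) = s := Finset.insert_erase hp
    have h2 : ∀ a : ℤˣ, FM (Function.update x p a) s =
        (if a = -1 then (1 : ℝ) / p else 0) + FM x (s.erase p) := by
      intro a
      rw [← h1, FM_insert _ hps, FM_update hps, Function.update_self, h1]
    simp only [h2, if_neg one_ne_neg_one_units, if_true]
    have h3 : (0 : ℝ) ≤ 1 / p := by positivity
    rw [show (0 : ℝ) + FM x (s.erase p) - (1 / (p : ℝ) + FM x (s.erase p)) = -(1 / (p : ℝ)) by ring,
      abs_neg, abs_of_nonneg h3]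
  have h := bounded_differences hθ (c := fun p : ℕ => (1 : ℝ) / p) (L := s.toList)
    (Finset.nodup_toList _) (measurable_FM s) hK hBD (V := V) (ε := ε)
    (by rw [Finset.sum_map_toList]; exact hV) hV0 hε
  have h2 : ∀ x : SS, AVL θ s.toList (fun x => FM x s) x = ∑ p ∈ s, θ p / (p : ℝ) := by
    intro x
    have h3 := AVL_FM θ s.toList (Finset.nodup_toList _) 0 x
    simpa using h3
  simp only [h2] at h
  exact h

lemma primes_sq_le (N : ℕ) : ∑ p ∈ (Icc 1 N).filter Nat.Prime, ((1 : ℝ) / p) ^ 2 ≤ 2 := by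
  refine le_trans ?_ (sum_inv_sq_le N)
  refine (Finset.sum_le_sum_of_subset_of_nonneg (Finset.filter_subset _ _)
    fun _ _ _ => by positivity).trans (le_of_eq ?_)
  refine Finset.sum_congr rfl fun p _ => ?_
  rw [div_pow, one_pow]

lemma primes_mono {M N : ℕ} (h : M ≤ N) :
    (Icc 1 M).filter Nat.Prime ⊆ (Icc 1 N).filter Nat.Prime :=
  Finset.filter_subset_filter _ (Finset.Icc_subset_Icc le_rfl h)

theorem ae_div {θ : ℕ → ℝ} (hθ : ∀ p, θ p = (ν p).real {-1})
    (hdiv : Tendsto (fun N : ℕ => ∑ p ∈ (Icc 1 N).filter Nat.Prime, θ p / (p : ℝ)) atTop atTop) :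
    ∀ᵐ x ∂(Measure.infinitePi ν), DivS x := by
  have hex : ∀ k : ℕ, ∃ N : ℕ, (16 * ((k : ℝ) + 1)) ≤
      ∑ p ∈ (Icc 1 N).filter Nat.Prime, θ p / (p : ℝ) := fun k =>
    (hdiv.eventually_ge_atTop (16 * ((k : ℝ) + 1))).exists
  choose N hN using hex
  set m : ℕ → ℝ := fun k => ∑ p ∈ (Icc 1 (N k)).filter Nat.Prime, θ p / (p : ℝ) with hm
  have hmk : ∀ k : ℕ, 16 * ((k : ℝ) + 1) ≤ m k := hN
  set s : ℕ → Set SS := fun k => {x | m k / 2 ≤ |FM x ((Icc 1 (N k)).filter Nat.Prime) - m k|}
    with hs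
  have hbound : ∀ k : ℕ, (Measure.infinitePi ν).real (s k) ≤ 2 * Real.exp (-(k : ℝ)) := by
    intro k
    have hk0 : (0 : ℝ) ≤ k := Nat.cast_nonneg k
    have h1 := hmk k
    refine (FM_conc hθ _ (primes_sq_le (N k)) (by norm_num) (by linarith)).trans ?_
    apply mul_le_mul_of_nonneg_left _ (by norm_num)
    apply Real.exp_le_exp.mpr
    rw [neg_le_neg_iff, le_div_iff₀ (by norm_num)]
    nlinarith
  have hsum : Summable fun k => (Measure.infinitePi ν).real (s k) := by
    refine Summable.of_nonneg_of_le (fun _ => measureReal_nonneg) hbound ?_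
    exact Real.summable_exp_neg_nat.mul_left 2
  have hne_top : ∑' k, (Measure.infinitePi ν) (s k) ≠ ⊤ := by
    have h1 := hsum.tsum_ofReal_ne_top
    have h2 : (fun k => ENNReal.ofReal ((Measure.infinitePi ν).real (s k))) =
        fun k => (Measure.infinitePi ν) (s k) := by
      funext k
      exact ofReal_measureReal
    rwa [h2] at h1
  filter_upwards [ae_eventually_notMem hne_top] with x hx
  unfold DivS
  rw [tendsto_atTop]
  intro b
  obtain ⟨k1, hk1⟩ := eventually_atTop.mp hx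
  obtain ⟨k2, hk2⟩ := exists_nat_ge b
  set k := max k1 k2 with hk
  have h3 : FM x ((Icc 1 (N k)).filter Nat.Prime) ≥ b := by
    have h4 : ¬ (m k / 2 ≤ |FM x ((Icc 1 (N k)).filter Nat.Prime) - m k|) :=
      hk1 k (le_max_left _ _)
    push Not at h4
    have h5 := (abs_lt.mp h4).1
    have h6 := hmk k
    have h7 : (k2 : ℝ) ≤ k := by exact_mod_cast le_max_right k1 k2
    have h8 : (0 : ℝ) ≤ k2 := Nat.cast_nonneg _
    linarith
  filter_upwards [eventually_ge_atTop (N k)] with M hM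
  exact le_trans h3 (FM_mono x (primes_mono hM))

theorem ae_conv {θ : ℕ → ℝ} (hθ : ∀ p, θ p = (ν p).real {-1}) {C : ℝ}
    (hC : ∀ N : ℕ, ∑ p ∈ (Icc 1 N).filter Nat.Prime, θ p / (p : ℝ) ≤ C) :
    ∀ᵐ x ∂(Measure.infinitePi ν), ∃ B : ℝ, ∀ N : ℕ, FM x ((Icc 1 N).filter Nat.Prime) ≤ B := by
  set G : ℕ → ℕ → Set SS := fun t N => {x | C + ((t : ℝ) + 1) < FM x ((Icc 1 N).filter Nat.Prime)}
    with hG
  have hGm : ∀ t, Monotone (G t) := by
    intro t M N hMN x hx
    exact lt_of_lt_of_le hx (FM_mono x (primes_mono hMN))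
  have hGb : ∀ t N, (Measure.infinitePi ν) (G t N) ≤
      ENNReal.ofReal (2 * Real.exp (-(t : ℝ) / 4)) := by
    intro t N
    have ht : (0 : ℝ) ≤ t := Nat.cast_nonneg t
    have h1 : (Measure.infinitePi ν).real {x | ((t : ℝ) + 1) ≤
        |FM x ((Icc 1 N).filter Nat.Prime) - ∑ p ∈ (Icc 1 N).filter Nat.Prime, θ p / (p : ℝ)|} ≤
          2 * Real.exp (-(t : ℝ) / 4) := by
      refine (FM_conc hθ _ (primes_sq_le N) (by norm_num) (by linarith)).trans ?_
      apply mul_le_mul_of_nonneg_left _ (by norm_num)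
      apply Real.exp_le_exp.mpr
      have h2 : (t : ℝ) / 4 ≤ ((t : ℝ) + 1) ^ 2 / (2 * 2) := by
        rw [div_le_div_iff₀ (by norm_num) (by norm_num)]
        nlinarith
      linarith [neg_div (4 : ℝ) (t : ℝ)]
    have h2 : G t N ⊆ {x | ((t : ℝ) + 1) ≤
        |FM x ((Icc 1 N).filter Nat.Prime) - ∑ p ∈ (Icc 1 N).filter Nat.Prime, θ p / (p : ℝ)|} := by
      intro x hx
      rw [Set.mem_ofPred_eq]
      have h3 : C + ((t : ℝ) + 1) < FM x ((Icc 1 N).filter Nat.Prime) := hx
      have h4 := hC N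
      refine le_trans ?_ (le_abs_self _)
      linarith
    refine (measure_mono h2).trans ?_
    rw [← ofReal_measureReal]
    exact ENNReal.ofReal_le_ofReal h1
  have hU : ∀ t, (Measure.infinitePi ν) (⋃ N, G t N) ≤
      ENNReal.ofReal (2 * Real.exp (-(t : ℝ) / 4)) := by
    intro t
    rw [(hGm t).measure_iUnion]
    exact iSup_le (hGb t)
  have hlim : Tendsto (fun t : ℕ => ENNReal.ofReal (2 * Real.exp (-(t : ℝ) / 4))) atTop (𝓝 0) := by
    have h1 : Tendsto (fun t : ℕ => 2 * Real.exp (-(t : ℝ) / 4)) atTop (𝓝 0) := by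
      have h2 : Tendsto (fun t : ℕ => (t : ℝ) / 4) atTop atTop :=
        tendsto_natCast_atTop_atTop.atTop_div_const (by norm_num)
      have h3 := (Real.tendsto_exp_neg_atTop_nhds_zero.comp h2).const_mul 2
      rw [mul_zero] at h3
      refine h3.congr fun t => ?_
      simp only [Function.comp_apply]
      rw [neg_div]
    have h2 := ENNReal.tendsto_ofReal h1
    rwa [ENNReal.ofReal_zero] at h2
  have hnull : (Measure.infinitePi ν) (⋂ t, ⋃ N, G t N) = 0 := by
    refine le_antisymm ?_ bot_le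
    exact ge_of_tendsto' hlim fun t => (measure_mono (Set.iInter_subset _ t)).trans (hU t)
  have hae : ∀ᵐ x ∂(Measure.infinitePi ν), x ∉ ⋂ t, ⋃ N, G t N :=
    measure_eq_zero_iff_ae_notMem.mp hnull
  filter_upwards [hae] with x hx
  rw [Set.mem_iInter] at hx
  push Not at hx
  obtain ⟨t, ht⟩ := hx
  rw [Set.mem_iUnion] at ht
  push Not at ht
  refine ⟨C + ((t : ℝ) + 1), fun N => ?_⟩
  have h := ht N
  rw [hG] at h
  simp only [Set.mem_ofPred_eq, not_lt] at h
  exact h

end Pool.Agent.Lib.P4a7640R
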