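import Mathlib
import Pool.Agent.Lib.P4a7640R.Base
import Pool.Agent.Lib.P4a7640L.Net
import Pool.Agent.Lib.P4a7640D.BlockMass

/-!
# Scales with a heavy top window are rare

Module P4R.Heavy (1.5 h).

`n_i = Nat.nth T i` enumerates the infinite set `T` of all `k` such that the window
`TOPc c (Nk η k)` has `τ`-mass at least `κ`.

PROOF.  (1) There is `W` such that every prime `p` lies in `TOPc c (Nk η k)` for at most `W` values of
`k`: `p ≤ Nk η k < p^(2^c)` gives `log p ≤ log (Nk η k) ≤ exp(η k) + 1` (`Net46.log_le`) and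
`exp(η k) ≤ log (Nk η k) < 2^c log p` (`Net46.exp_le_log`).  If `log p ≥ 2` then
`exp(η k) ∈ [log p / 2, 2^c log p)`, so `η k` lies in an interval of length `(c+1) log 2` and there are at
most `(c+1) log 2 / η + 1` values of `k`; if `log p < 2` then `exp (η k) < 2^(c+1)` and there are at most
`(c+1) log 2 / η + 1` values of `k` as well.
(2) `(i+1) κ ≤ ∑_{j ≤ i} ∑_{p ∈ TOPc c (Nk η n_j)} τ p / p ≤ W ∑_{p ≤ Nk η n_i} τ p / p` (`Nk` is monotone,
`Net46.mono`).
(3) `∑_{p ≤ √i} τ p / p ≤ √i`.  So the sum in the claim is `≥ (i+1) κ / W - √i → ∞`.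
-/

open Filter Topology Finset

namespace Pool.Agent.Lib.P4a7640R

open Pool.Agent.Lib.P4a7640 Pool.Agent.Lib.P4a7640L

namespace Heavy

/-- two scales with a common prime in the top window are close -/
lemma close {η : ℝ} (hη : 0 < η) {c p k k' : ℕ} (h : p ∈ TOPc c (Nk η k))
    (h' : p ∈ TOPc c (Nk η k')) (hkk : k ≤ k') : k' ≤ k + ⌈(c + 1) * Real.log 2 / η⌉₊ := by
  obtain ⟨h1, hp, -⟩ := mem_TOPc.1 h
  obtain ⟨-, -, h3⟩ := mem_TOPc.1 h'
  have hp0 : (0 : ℝ) < p := by exact_mod_cast hp.pos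
  have e1 := Net46.exp_le_log (η := η) k'
  have e2 := Net46.log_le (η := η) k
  have e3 : Real.log (Nk η k') ≤ 2 ^ c * Real.log p := by
    have h4 : ((Nk η k' : ℕ) : ℝ) ≤ (p : ℝ) ^ (2 ^ c) := by exact_mod_cast h3.le
    have h5 : (0 : ℝ) < Nk η k' := lt_of_lt_of_le (Real.exp_pos _) (Nat.le_ceil _)
    have h6 := Real.log_le_log h5 h4
    rw [Real.log_pow] at h6
    push_cast at h6
    exact h6
  have e4 : Real.log p ≤ Real.log (Nk η k) := Real.log_le_log hp0 (by exact_mod_cast h1)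
  have e5 : (1 : ℝ) ≤ Real.exp (η * k) := Real.one_le_exp (by positivity)
  have e6 : Real.exp (η * k') ≤ 2 ^ (c + 1) * Real.exp (η * k) := by
    have hc : (0 : ℝ) ≤ 2 ^ c := by positivity
    calc Real.exp (η * k') ≤ 2 ^ c * Real.log p := e1.trans e3
      _ ≤ 2 ^ c * (Real.exp (η * k) + 1) := mul_le_mul_of_nonneg_left (e4.trans e2) hc
      _ ≤ 2 ^ c * (2 * Real.exp (η * k)) := mul_le_mul_of_nonneg_left (by linarith) hc
      _ = 2 ^ (c + 1) * Real.exp (η * k) := by ring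
  have e7 : η * k' ≤ (c + 1) * Real.log 2 + η * k := by
    have h7 := Real.log_le_log (Real.exp_pos _) e6
    rw [Real.log_exp, Real.log_mul (by positivity) (Real.exp_pos _).ne', Real.log_exp,
      Real.log_pow] at h7
    push_cast at h7
    exact h7
  have e8 : (k' : ℝ) - k ≤ (c + 1) * Real.log 2 / η := by
    rw [le_div_iff₀ hη]
    linarith
  have e9 : (k' : ℝ) - k ≤ (⌈(c + 1) * Real.log 2 / η⌉₊ : ℕ) := e8.trans (Nat.le_ceil _)
  have e10 : (k' : ℝ) ≤ ((k + ⌈(c + 1) * Real.log 2 / η⌉₊ : ℕ) : ℝ) := by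
    push_cast
    push_cast at e9
    linarith
  exact_mod_cast e10

/-- every prime is in the top window of a bounded number of scales -/
lemma card_le {η : ℝ} (hη : 0 < η) (c p : ℕ) (s : Finset ℕ)
    (hs : ∀ k ∈ s, p ∈ TOPc c (Nk η k)) : s.card ≤ ⌈(c + 1) * Real.log 2 / η⌉₊ + 1 := by
  rcases s.eq_empty_or_nonempty with rfl | hne
  · simp
  · set m := s.min' hne with hm
    have h1 : s ⊆ Icc m (m + ⌈(c + 1) * Real.log 2 / η⌉₊) := by
      intro k hk
      have h2 : m ≤ k := s.min'_le k hk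
      exact mem_Icc.2 ⟨h2, close hη (hs m (s.min'_mem hne)) (hs k hk) h2⟩
    refine (card_le_card h1).trans ?_
    rw [Nat.card_Icc]
    omega

end Heavy

theorem heavy_mass {τ : ℕ → ℝ} (hτ : ∀ p, 0 ≤ τ p) (hτ1 : ∀ p, τ p ≤ 1) {η : ℝ} (hη : 0 < η) (c : ℕ)
    {κ : ℝ} (hκ : 0 < κ) {T : ℕ → Prop}
    (hT : ∀ k, T k ↔ κ ≤ ∑ p ∈ TOPc c (Nk η k), τ p / (p : ℝ)) (hinf : {k | T k}.Infinite) :
    Tendsto (fun i : ℕ => ∑ p ∈ PR (Real.sqrt i) (Nk η (Nat.nth T i)), τ p / (p : ℝ))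
      atTop atTop := by
  classical
  set W : ℕ := ⌈(c + 1) * Real.log 2 / η⌉₊ + 1 with hW
  have hW0 : (0 : ℝ) < W := by
    rw [hW]
    positivity
  have hnn : ∀ p : ℕ, 0 ≤ τ p / (p : ℝ) := fun p => div_nonneg (hτ p) (Nat.cast_nonneg p)
  have hmono : StrictMono (Nat.nth T) := Nat.nth_strictMono hinf
  have key : ∀ i : ℕ, κ / W * i - Real.sqrt i ≤
      ∑ p ∈ PR (Real.sqrt i) (Nk η (Nat.nth T i)), τ p / (p : ℝ) := by
    intro i
    set N : ℕ := Nk η (Nat.nth T i) with hN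
    set P : Finset ℕ := (Icc 1 N).filter Nat.Prime with hP
    have h1 : ((i : ℝ) + 1) * κ ≤
        ∑ j ∈ range (i + 1), ∑ p ∈ TOPc c (Nk η (Nat.nth T j)), τ p / (p : ℝ) := by
      calc ((i : ℝ) + 1) * κ = ∑ _j ∈ range (i + 1), κ := by
            rw [sum_const, card_range, nsmul_eq_mul]
            push_cast
            ring
        _ ≤ _ := sum_le_sum fun j _ => (hT _).1 (Nat.nth_mem_of_infinite hinf j)
    have h2 : ∑ j ∈ range (i + 1), ∑ p ∈ TOPc c (Nk η (Nat.nth T j)), τ p / (p : ℝ) ≤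
        W * ∑ p ∈ P, τ p / (p : ℝ) := by
      have h3 : ∀ j ∈ range (i + 1), ∑ p ∈ TOPc c (Nk η (Nat.nth T j)), τ p / (p : ℝ) =
          ∑ p ∈ P, if p ∈ TOPc c (Nk η (Nat.nth T j)) then τ p / (p : ℝ) else 0 := by
        intro j hj
        rw [← sum_filter]
        refine sum_congr ?_ fun _ _ => rfl
        ext p
        rw [mem_filter]
        constructor
        · intro hp
          obtain ⟨h4, h5, -⟩ := mem_TOPc.1 hp
          refine ⟨?_, hp⟩
          rw [hP, mem_filter, mem_Icc]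
          refine ⟨⟨h5.pos, h4.trans (Net46.mono hη (hmono.monotone ?_))⟩, h5⟩
          have := mem_range.1 hj
          omega
        · exact fun hp => hp.2
      rw [sum_congr rfl h3, sum_comm, mul_sum]
      refine sum_le_sum fun p _ => ?_
      rw [← sum_filter, sum_const, nsmul_eq_mul]
      refine mul_le_mul_of_nonneg_right ?_ (hnn p)
      have h4 : (((range (i + 1)).filter fun j => p ∈ TOPc c (Nk η (Nat.nth T j))).image
          (Nat.nth T)).card ≤ W := by
        refine Heavy.card_le hη c p _ fun k hk => ?_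
        obtain ⟨j, hj, rfl⟩ := mem_image.1 hk
        exact (mem_filter.1 hj).2
      rw [card_image_of_injective _ hmono.injective] at h4
      exact_mod_cast h4
    have h3 : ∑ p ∈ P, τ p / (p : ℝ) ≤
        ∑ p ∈ PR (Real.sqrt i) N, τ p / (p : ℝ) + Real.sqrt i := by
      rw [← sum_filter_add_sum_filter_not P (fun p : ℕ => Real.sqrt i < (p : ℝ))]
      refine add_le_add (le_of_eq (sum_congr ?_ fun _ _ => rfl)) ?_
      · ext p
        rw [mem_filter, mem_PR, hP, mem_filter, mem_Icc]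
        constructor
        · rintro ⟨⟨⟨_, h5⟩, h6⟩, h7⟩
          exact ⟨h5, h6, h7⟩
        · rintro ⟨h5, h6, h7⟩
          exact ⟨⟨⟨h6.pos, h5⟩, h6⟩, h7⟩
      · have h5 : (P.filter fun p : ℕ => ¬ Real.sqrt i < (p : ℝ)) ⊆ Icc 1 ⌊Real.sqrt i⌋₊ := by
          intro p hp
          rw [mem_filter, hP, mem_filter, mem_Icc, not_lt] at hp
          exact mem_Icc.2 ⟨hp.1.1.1, Nat.le_floor hp.2⟩
        calc ∑ p ∈ P.filter (fun p : ℕ => ¬ Real.sqrt i < (p : ℝ)), τ p / (p : ℝ)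
            ≤ ∑ p ∈ Icc 1 ⌊Real.sqrt i⌋₊, τ p / (p : ℝ) :=
              sum_le_sum_of_subset_of_nonneg h5 fun p _ _ => hnn p
          _ ≤ ∑ _p ∈ Icc 1 ⌊Real.sqrt i⌋₊, (1 : ℝ) := by
              refine sum_le_sum fun p hp => ?_
              have h6 : (1 : ℝ) ≤ p := by exact_mod_cast (mem_Icc.1 hp).1
              rw [div_le_one (by linarith)]
              exact (hτ1 p).trans h6
          _ = (⌊Real.sqrt i⌋₊ : ℝ) := by simp
          _ ≤ Real.sqrt i := Nat.floor_le (Real.sqrt_nonneg _)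
    have h4 : κ * i ≤ W * (∑ p ∈ PR (Real.sqrt i) N, τ p / (p : ℝ) + Real.sqrt i) := by
      have h5 := mul_le_mul_of_nonneg_left h3 hW0.le
      linarith
    have h5 : κ / W * i ≤ ∑ p ∈ PR (Real.sqrt i) N, τ p / (p : ℝ) + Real.sqrt i := by
      rw [div_mul_eq_mul_div, div_le_iff₀ hW0]
      linarith
    linarith
  refine tendsto_atTop_mono key ?_
  have hs : Tendsto (fun i : ℕ => Real.sqrt i) atTop atTop :=
    Real.tendsto_sqrt_atTop.comp tendsto_natCast_atTop_atTop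
  have h1 : Tendsto (fun i : ℕ => κ / W * Real.sqrt i - 1) atTop atTop :=
    tendsto_atTop_add_const_right _ _ (hs.const_mul_atTop (by positivity))
  have h2 := hs.atTop_mul_atTop₀ h1
  refine h2.congr fun i => ?_
  have h3 : Real.sqrt i * Real.sqrt i = (i : ℝ) := Real.mul_self_sqrt (Nat.cast_nonneg i)
  have h4 : Real.sqrt i * (κ / W * Real.sqrt i - 1) =
      κ / W * (Real.sqrt i * Real.sqrt i) - Real.sqrt i := by ring
  rw [h4, h3]

end Pool.Agent.Lib.P4a7640R
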