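import Mathlib
import Pool.Agent.Lib.P4a7640R.Base
import Pool.Agent.Lib.P4a7640R.FlipDiv
import Pool.Agent.Lib.P4a7640.Asym
import Pool.Agent.Lib.P4a7640L.Net

/-!
# The random mass of the top window

Module P4R.TopMass (1.3 h).

PROOF.  Let `N = Nk η k`, `s = TOPc c N`. For large `k` all `p ∈ s` are `> k`
(`k ^ (2 ^ c) ≤ exp (η k) ≤ N`), so `∑_{p ∈ s} 1/p² ≤ 2/(k+1)` and `FM_conc` (FlipDiv.lean) gives
`P(|FM x s - ∑ θ p / p| ≥ κ) ≤ 2 exp (-κ² (k+1) / 4)`, summable in `k`; Borel-Cantelli.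
-/

open MeasureTheory ProbabilityTheory Filter Topology Finset

namespace Pool.Agent.Lib.P4a7640R

open Pool.Agent.Lib.P4a7640 Pool.Agent.Lib.P4a7640L

variable {ν : ℕ → Measure ℤˣ} [∀ p, IsProbabilityMeasure (ν p)]

lemma TOPc_large {η : ℝ} (hη : 0 < η) (c : ℕ) :
    ∀ᶠ k : ℕ in atTop, ∀ p ∈ TOPc c (Nk η k), k < p := by
  have h1 := (isLittleO_pow_exp_pos_mul_atTop (2 ^ c) hη).bound (c := 1) one_pos
  have h2 := (tendsto_natCast_atTop_atTop (R := ℝ)).eventually h1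
  filter_upwards [h2] with k hk p hp
  rw [mem_TOPc] at hp
  obtain ⟨_, _, h3⟩ := hp
  by_contra hcon
  push Not at hcon
  have hk0 : (0 : ℝ) ≤ k := Nat.cast_nonneg k
  rw [one_mul, Real.norm_of_nonneg (by positivity), Real.norm_of_nonneg (Real.exp_pos _).le] at hk
  have h4 : ((Nk η k : ℕ) : ℝ) < (k : ℝ) ^ (2 ^ c) := by
    have h5 : Nk η k < k ^ (2 ^ c) := lt_of_lt_of_le h3 (Nat.pow_le_pow_left hcon _)
    exact_mod_cast h5
  have h5 : Real.exp (Real.exp (η * k)) ≤ (Nk η k : ℕ) := Nat.le_ceil _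
  have h6 : Real.exp (η * k) ≤ Real.exp (Real.exp (η * k)) := by
    have := Real.add_one_le_exp (Real.exp (η * k))
    linarith
  linarith

theorem ae_top {θ : ℕ → ℝ} (hθ : ∀ p, θ p = (ν p).real {-1}) {η : ℝ} (hη : 0 < η) (c : ℕ) {κ : ℝ}
    (hκ : 0 < κ) :
    ∀ᵐ x ∂(Measure.infinitePi ν), ∀ᶠ k : ℕ in atTop,
      FM x (TOPc c (Nk η k)) ≤ ∑ p ∈ TOPc c (Nk η k), θ p / (p : ℝ) + κ := by
  set s : ℕ → Set SS := fun k => {x | κ ≤ |FM x (TOPc c (Nk η k)) -
    ∑ p ∈ TOPc c (Nk η k), θ p / (p : ℝ)|} with hs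
  set a : ℝ := κ ^ 2 / 4 with ha
  have ha0 : 0 < a := by positivity
  have hbound : ∀ᶠ k : ℕ in atTop, ‖(Measure.infinitePi ν).real (s k)‖ ≤
      2 * Real.exp (-a) ^ k := by
    filter_upwards [TOPc_large hη c] with k hk
    rw [Real.norm_of_nonneg measureReal_nonneg]
    have hk0 : (0 : ℝ) ≤ k := Nat.cast_nonneg k
    have hV : ∑ p ∈ TOPc c (Nk η k), ((1 : ℝ) / p) ^ 2 ≤ 2 / ((k : ℝ) + 1) := by
      have h1 : TOPc c (Nk η k) ⊆ Finset.Ioo k (Nk η k + 1) := by
        intro p hp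
        rw [Finset.mem_Ioo]
        have h2 := (mem_TOPc.mp hp).1
        exact ⟨hk p hp, by omega⟩
      refine le_trans ?_ (sum_Ioo_inv_sq_le (α := ℝ) k (Nk η k + 1))
      refine (Finset.sum_le_sum_of_subset_of_nonneg h1 fun _ _ _ => by positivity).trans
        (le_of_eq ?_)
      refine Finset.sum_congr rfl fun p _ => ?_
      rw [div_pow, one_pow, one_div]
    refine (FM_conc hθ _ hV (by positivity) hκ).trans ?_
    apply mul_le_mul_of_nonneg_left _ (by norm_num)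
    rw [← Real.exp_nat_mul]
    apply Real.exp_le_exp.mpr
    have h2 : κ ^ 2 / (2 * (2 / ((k : ℝ) + 1))) = a * ((k : ℝ) + 1) := by
      rw [ha]
      field_simp
      norm_num
    rw [h2]
    nlinarith
  have hsum : Summable fun k => (Measure.infinitePi ν).real (s k) := by
    refine Summable.of_norm_bounded_eventually_nat (g := fun k : ℕ => 2 * Real.exp (-a) ^ k) ?_ hbound
    refine (summable_geometric_of_lt_one (Real.exp_pos _).le ?_).mul_left 2
    rw [Real.exp_lt_one_iff]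
    linarith
  have hne_top : ∑' k, (Measure.infinitePi ν) (s k) ≠ ⊤ := by
    have h1 := hsum.tsum_ofReal_ne_top
    have h2 : (fun k => ENNReal.ofReal ((Measure.infinitePi ν).real (s k))) =
        fun k => (Measure.infinitePi ν) (s k) := by
      funext k
      exact ofReal_measureReal
    rwa [h2] at h1
  filter_upwards [ae_eventually_notMem hne_top] with x hx
  filter_upwards [hx] with k h1
  have h2 : ¬ (κ ≤ |FM x (TOPc c (Nk η k)) - ∑ p ∈ TOPc c (Nk η k), θ p / (p : ℝ)|) := h1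
  push Not at h2
  have h3 := (abs_lt.mp h2).2
  linarith

end Pool.Agent.Lib.P4a7640R
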