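import Mathlib
import Pool.Agent.Lib.P4a7640R.Base
import Pool.Agent.Lib.P4a7640.Asym

/-!
# From square root windows to all top windows, mixed hypothesis

Induction on `c` as in `win_top` (`Lib/P4a7640R/WinTop.lean`):
`TOPc (c+1) N ⊆ TOPc 1 N ∪ TOPc c (Nat.sqrt N)`.  Let `N' = Nat.sqrt N`.  If
`∑_{p ∈ PR (l3 N) N} τ p / p ≤ C`, then `∑_{p ∈ PR (l3 N') N'} τ p / p ≤ C + 1` for large `N`: the additional
primes lie in `(l3 N', l3 N' + 1]`, there is at most one of them.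
-/

open Filter Topology Finset

namespace Pool.Agent.Lib.P4a7640R

open Pool.Agent.Lib.P4a7640

namespace WinTopUAux

lemma tendsto_sqrt : Tendsto (fun N : ℕ => Nat.sqrt N) atTop atTop :=
  tendsto_atTop.2 fun b => eventually_atTop.2 ⟨b * b, fun N hN => Nat.le_sqrt.2 hN⟩

lemma l3_le : ∀ᶠ N : ℕ in atTop, l3 N ≤ l3 (Nat.sqrt N) + 1 := by
  have h1 : ∀ᶠ N : ℕ in atTop, 2 ≤ Nat.sqrt N := tendsto_sqrt.eventually_ge_atTop 2
  have h2 : ∀ᶠ N : ℕ in atTop, 1 ≤ Real.log (Real.log (Nat.sqrt N : ℕ)) :=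
    ((Real.tendsto_log_atTop.comp tendsto_logN).comp tendsto_sqrt).eventually_ge_atTop 1
  have h3 : ∀ᶠ N : ℕ in atTop, 1 ≤ Real.log (Nat.sqrt N : ℕ) :=
    (tendsto_logN.comp tendsto_sqrt).eventually_ge_atTop 1
  filter_upwards [h1, h2, h3]
  intro N k1 k2 k3
  set M := Nat.sqrt N with hM
  have hN : N ≤ M ^ 4 := by
    have h4 : N < (M + 1) * (M + 1) := Nat.sqrt_lt.1 (by omega)
    have h5 : (M + 1) * (M + 1) ≤ (M * 2) * (M * 2) := by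
      apply Nat.mul_le_mul <;> omega
    have h6 : (M * 2) * (M * 2) ≤ (M * M) * (M * M) := by
      apply Nat.mul_le_mul <;> exact Nat.mul_le_mul le_rfl k1
    calc N ≤ (M * M) * (M * M) := by omega
      _ = M ^ 4 := by ring
  have hM1 : (1 : ℝ) ≤ M := by exact_mod_cast (by omega : 1 ≤ M)
  have hNpos : 0 < N := by
    rcases Nat.eq_zero_or_pos N with h | h
    · rw [hM, h] at k1
      simp at k1
    · exact h
  have hNM : M ≤ N := by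
    rw [hM]
    exact Nat.sqrt_le_self N
  have e1 : Real.log (N : ℝ) ≤ 4 * Real.log (M : ℝ) := by
    have h5 : (N : ℝ) ≤ (M : ℝ) ^ 4 := by exact_mod_cast hN
    have h6 := Real.log_le_log (by exact_mod_cast hNpos) h5
    rw [Real.log_pow] at h6
    exact_mod_cast h6
  have e0 : Real.log (M : ℝ) ≤ Real.log (N : ℝ) :=
    Real.log_le_log (by linarith) (by exact_mod_cast hNM)
  have e2 : Real.log (Real.log (N : ℝ)) ≤ Real.log 4 + Real.log (Real.log (M : ℝ)) := by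
    rw [← Real.log_mul (by norm_num) (by linarith)]
    exact Real.log_le_log (by linarith) e1
  have e3 : Real.log 4 ≤ 1.4 := by
    have h7 : Real.log 4 = 2 * Real.log 2 := by
      rw [show (4 : ℝ) = 2 ^ 2 by norm_num, Real.log_pow]
      norm_num
    rw [h7]
    linarith [Real.log_two_lt_d9]
  have e4 : Real.log (Real.log (N : ℝ)) ≤ Real.exp 1 * Real.log (Real.log (M : ℝ)) := by
    have h8 := Real.exp_one_gt_d9
    nlinarith
  have e5 : 0 < Real.log (Real.log (N : ℝ)) := by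
    have h9 := Real.log_le_log (by linarith) e0
    linarith
  unfold l3
  calc Real.log (Real.log (Real.log (N : ℝ)))
      ≤ Real.log (Real.exp 1 * Real.log (Real.log (M : ℝ))) := Real.log_le_log e5 e4
    _ = Real.log (Real.log (Real.log (M : ℝ))) + 1 := by
      rw [Real.log_mul (Real.exp_ne_zero 1) (by linarith), Real.log_exp]
      ring

lemma sum_le {τ : ℕ → ℝ} (hτ : ∀ p, 0 ≤ τ p) (hτ1 : ∀ p, τ p ≤ 1) {N M : ℕ} (hMN : M ≤ N)
    (h : l3 N ≤ l3 M + 1) (h0 : 0 ≤ l3 M) :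
    ∑ p ∈ PR (l3 M) M, τ p / (p : ℝ) ≤ ∑ p ∈ PR (l3 N) N, τ p / (p : ℝ) + 1 := by
  have hnn : ∀ p : ℕ, 0 ≤ τ p / (p : ℝ) := fun p => div_nonneg (hτ p) (Nat.cast_nonneg p)
  have hsub : PR (l3 M) M ⊆ PR (l3 N) N ∪ {⌊l3 M⌋₊ + 1} := by
    intro p hp
    obtain ⟨h1, h2, h3⟩ := mem_PR.1 hp
    rw [mem_union, mem_PR, mem_singleton]
    by_cases h4 : l3 N < (p : ℝ)
    · exact Or.inl ⟨h1.trans hMN, h2, h4⟩
    · right
      rw [not_lt] at h4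
      have h5 : ⌊l3 M⌋₊ < p := (Nat.floor_lt h0).2 h3
      have h6 : p ≤ ⌊l3 M + 1⌋₊ := Nat.le_floor (h4.trans h)
      rw [Nat.floor_add_one h0] at h6
      omega
  calc ∑ p ∈ PR (l3 M) M, τ p / (p : ℝ)
      ≤ ∑ p ∈ PR (l3 N) N ∪ {⌊l3 M⌋₊ + 1}, τ p / (p : ℝ) :=
        sum_le_sum_of_subset_of_nonneg hsub fun p _ _ => hnn p
    _ ≤ ∑ p ∈ PR (l3 N) N ∪ {⌊l3 M⌋₊ + 1}, τ p / (p : ℝ) +
        ∑ p ∈ PR (l3 N) N ∩ {⌊l3 M⌋₊ + 1}, τ p / (p : ℝ) :=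
        le_add_of_nonneg_right (sum_nonneg fun p _ => hnn p)
    _ = ∑ p ∈ PR (l3 N) N, τ p / (p : ℝ) + ∑ p ∈ {⌊l3 M⌋₊ + 1}, τ p / (p : ℝ) :=
        sum_union_inter
    _ ≤ ∑ p ∈ PR (l3 N) N, τ p / (p : ℝ) + 1 := by
        gcongr
        rw [sum_singleton]
        have h7 : (1 : ℝ) ≤ ((⌊l3 M⌋₊ + 1 : ℕ) : ℝ) := by
          push_cast
          linarith [(Nat.cast_nonneg ⌊l3 M⌋₊ : (0 : ℝ) ≤ _)]
        rw [div_le_one (by linarith)]
        linarith [hτ1 (⌊l3 M⌋₊ + 1)]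

end WinTopUAux

open WinTopUAux in
theorem win_topU {φ τ : ℕ → ℝ} (hφ : ∀ p, 0 ≤ φ p) (hτ : ∀ p, 0 ≤ τ p) (hτ1 : ∀ p, τ p ≤ 1)
    (hU : ∀ C κ : ℝ, 0 < κ → ∀ᶠ N : ℕ in atTop, ∑ p ∈ PR (l3 N) N, τ p / (p : ℝ) ≤ C →
      ∑ p ∈ TOPc 1 N, φ p / (p : ℝ) ≤ κ) (c : ℕ) :
    ∀ C κ : ℝ, 0 < κ → ∀ᶠ N : ℕ in atTop, ∑ p ∈ PR (l3 N) N, τ p / (p : ℝ) ≤ C →
      ∑ p ∈ TOPc c N, φ p / (p : ℝ) ≤ κ := by
  have hnn : ∀ p : ℕ, 0 ≤ φ p / (p : ℝ) := fun p => div_nonneg (hφ p) (Nat.cast_nonneg p)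
  induction c with
  | zero =>
    intro C κ hκ
    refine Eventually.of_forall fun N _ => ?_
    have h0 : TOPc 0 N = ∅ := by
      rw [Finset.eq_empty_iff_forall_notMem]
      intro p hp
      obtain ⟨h1, _, h2⟩ := mem_TOPc.1 hp
      rw [pow_zero, pow_one] at h2
      omega
    rw [h0, Finset.sum_empty]
    exact hκ.le
  | succ c ih =>
    intro C κ hκ
    have h1 := hU C (κ / 2) (by linarith)
    have h2 := tendsto_sqrt.eventually (ih (C + 1) (κ / 2) (by linarith))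
    have h3 : ∀ᶠ N : ℕ in atTop, 0 ≤ l3 (Nat.sqrt N) :=
      (tendsto_l3.comp tendsto_sqrt).eventually_ge_atTop 0
    filter_upwards [h1, h2, h3, l3_le] with N k1 k2 k3 k4 hC
    have k5 := k1 hC
    have k6 := k2 ((sum_le hτ hτ1 (Nat.sqrt_le_self N) k4 k3).trans (by linarith))
    have hsub : TOPc (c + 1) N ⊆ TOPc 1 N ∪ TOPc c (Nat.sqrt N) := by
      intro p hp
      obtain ⟨h1, h2, h3⟩ := mem_TOPc.1 hp
      rw [Finset.mem_union, mem_TOPc, mem_TOPc]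
      by_cases h4 : N < p ^ (2 ^ 1)
      · exact Or.inl ⟨h1, h2, h4⟩
      · right
        rw [pow_one, pow_two, not_lt] at h4
        refine ⟨Nat.le_sqrt.2 h4, h2, ?_⟩
        rw [Nat.sqrt_lt, ← pow_two, ← pow_mul, ← pow_succ]
        exact h3
    calc ∑ p ∈ TOPc (c + 1) N, φ p / (p : ℝ) ≤
          ∑ p ∈ TOPc 1 N ∪ TOPc c (Nat.sqrt N), φ p / (p : ℝ) :=
          Finset.sum_le_sum_of_subset_of_nonneg hsub fun p _ _ => hnn p
      _ ≤ ∑ p ∈ TOPc 1 N ∪ TOPc c (Nat.sqrt N), φ p / (p : ℝ) +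
          ∑ p ∈ TOPc 1 N ∩ TOPc c (Nat.sqrt N), φ p / (p : ℝ) :=
          le_add_of_nonneg_right (Finset.sum_nonneg fun p _ => hnn p)
      _ = ∑ p ∈ TOPc 1 N, φ p / (p : ℝ) + ∑ p ∈ TOPc c (Nat.sqrt N), φ p / (p : ℝ) :=
          Finset.sum_union_inter
      _ ≤ κ := by linarith

end Pool.Agent.Lib.P4a7640R
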