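import Mathlib
import Pool.Agent.Lib.P4a7640R.DetScale
import Pool.Agent.Lib.P4a7640R.AeSeq
import Pool.Agent.Lib.P4a7640R.TopMass
import Pool.Agent.Lib.P4a7640R.FlipDiv
import Pool.Agent.Lib.P4a7640R.WinTopU
import Pool.Agent.Lib.P4a7640R.AeRate
import Pool.Agent.Lib.P4a7640R.Heavy
import Pool.Agent.Lib.P4a7640.AS

/-!
# Almost sure vanishing of all correlations without a rate
-/

open MeasureTheory ProbabilityTheory Filter Topology Finset

namespace Pool.Agent.Lib.P4a7640R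

open Pool.Agent.Lib.P4a7640 Pool.Agent.Lib.P4a7640L Pool.Agent.Lib.P4a7640D

namespace MainAux

lemma rnd_multS (x : ℕ → ℤˣ) : MultS (rnd x) := fun _ _ hm hn _ => rnd_mul x hm.ne' hn.ne'

lemma rnd_prime (x : ℕ → ℤˣ) {p : ℕ} (hp : p.Prime) : rnd x p = x p := by
  unfold rnd
  rw [hp.factorization, Finsupp.prod_single_index (by simp)]
  simp

lemma FF_one (H : Finset ℕ) (N : ℕ) (x : SS) : FF (fun _ => 1) H N x = LA (prodSeq (rnd x) H) N := by
  have h := LA_prodSeq_mul (fun _ => 1) x H N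
  have h1 : (fun n => (fun _ : ℕ => (1 : ℤˣ)) n * rnd x n) = rnd x := by
    funext n
    simp
  have h2 : prodSeq (fun _ : ℕ => (1 : ℤˣ)) H = fun _ => (1:ℝ) := by
    funext n
    unfold prodSeq
    simp [sg_one]
  rw [h2] at h
  rw [← h]
  congr 2

lemma divS_rnd {x : ℕ → ℤˣ} (h : DivS x) : DivS (rnd x) := by
  unfold DivS at h ⊢
  refine h.congr fun N => ?_
  apply FM_congr
  intro p hp
  rw [rnd_prime x (mem_filter.mp hp).2]

lemma FM_rnd (x : ℕ → ℤˣ) (c N : ℕ) : FM (rnd x) (TOPc c N) = FM x (TOPc c N) := by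
  apply FM_congr
  intro p hp
  rw [rnd_prime x (mem_TOPc.mp hp).2.1]

end MainAux

open MainAux

variable {ν : ℕ → Measure ℤˣ} [∀ p, IsProbabilityMeasure (ν p)]

lemma ae_small {θ : ℕ → ℝ} (hθ : ∀ p, θ p = (ν p).real {-1})
    (hdiv : Tendsto (fun N : ℕ => ∑ p ∈ (Icc 1 N).filter Nat.Prime, θ p / (p : ℝ)) atTop atTop)
    (hU : ∀ C κ : ℝ, 0 < κ → ∀ᶠ N : ℕ in atTop,
      ∑ p ∈ PR (l3 N) N, min (θ p) (1 - θ p) / (p : ℝ) ≤ C →
        ∑ p ∈ TOPc 1 N, max (2 * θ p - 1) 0 / (p : ℝ) ≤ κ)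
    {H : Finset ℕ} (hne : H.Nonempty) {δ : ℝ} (hδ : 0 < δ) :
    ∀ᵐ x ∂(Measure.infinitePi ν), ∀ᶠ N : ℕ in atTop, |LA (prodSeq (rnd x) H) N| ≤ δ := by
  classical
  have hθ0 : ∀ p, 0 ≤ θ p := fun p => by rw [hθ]; exact measureReal_nonneg
  have hθ1 : ∀ p, θ p ≤ 1 := fun p => by rw [hθ]; exact measureReal_le_one
  set τ : ℕ → ℝ := fun p => min (θ p) (1 - θ p) with hτd
  have hτ0 : ∀ p, 0 ≤ τ p := fun p => le_min (hθ0 p) (by linarith [hθ1 p])
  have hτ1 : ∀ p, τ p ≤ 1 := fun p => (min_le_left _ _).trans (hθ1 p)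
  have hsplit : ∀ p, θ p = τ p + max (2 * θ p - 1) 0 := by
    intro p
    rcases le_total (θ p) (1 - θ p) with h | h
    · rw [hτd]
      simp only
      rw [min_eq_left h, max_eq_right (by linarith)]
      ring
    · rw [hτd]
      simp only
      rw [min_eq_right h, max_eq_left (by linarith)]
      ring
  -- the net
  obtain ⟨η, hη, hη2⟩ : ∃ η : ℝ, 0 < η ∧ Real.exp (2 * η) - 1 ≤ δ / 2 := by
    refine ⟨Real.log (1 + δ / 2) / 2, ?_, ?_⟩
    · have : 0 < Real.log (1 + δ / 2) := Real.log_pos (by linarith)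
      linarith
    · rw [show 2 * (Real.log (1 + δ / 2) / 2) = Real.log (1 + δ / 2) by ring,
        Real.exp_log (by linarith)]
      linarith
  obtain ⟨c, κ, hκ, hdet⟩ := det_scale H hne (δ / 2) (by positivity)
  obtain ⟨C, hrate⟩ := ae_rate hθ hne hη (half_pos hδ)
  set T : ℕ → Prop := fun k => κ / 4 ≤ ∑ p ∈ TOPc c (Nk η k), τ p / (p : ℝ) with hTd
  -- the windows
  have hwc : ∀ᶠ k : ℕ in atTop, ∑ p ∈ PR (l3 (Nk η k)) (Nk η k), τ p / (p : ℝ) ≤ C →
      ∑ p ∈ TOPc c (Nk η k), max (2 * θ p - 1) 0 / (p : ℝ) ≤ κ / 4 :=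
    (tendsto_Nk hη).eventually (win_topU (φ := fun p => max (2 * θ p - 1) 0)
      (fun p => le_max_right _ _) hτ0 hτ1 hU c C (κ / 4) (by positivity))
  -- heavy scales
  have hheavy : ∀ᵐ x ∂(Measure.infinitePi ν), ∀ᶠ k : ℕ in atTop, T k →
      |LA (prodSeq (rnd x) H) (Nk η k)| ≤ δ / 2 := by
    by_cases hinf : {k | T k}.Infinite
    · have hnth : Tendsto (Nat.nth T) atTop atTop := (Nat.nth_strictMono hinf).tendsto_atTop
      have h1 := ae_seq hθ (w := fun _ => 1) (fun _ => by simp) hne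
        (NN := fun i => Nk η (Nat.nth T i)) ((tendsto_Nk hη).comp hnth)
        (heavy_mass hτ0 hτ1 hη c (by positivity : 0 < κ / 4) (T := T) (fun k => Iff.rfl) hinf)
      filter_upwards [h1] with x hx
      have h2 : ∀ᶠ i : ℕ in atTop, |FF (fun _ => 1) H (Nk η (Nat.nth T i)) x| ≤ δ / 2 := by
        have := hx.abs
        rw [abs_zero] at this
        exact this.eventually (ge_mem_nhds (by positivity))
      obtain ⟨i₀, hi₀⟩ := eventually_atTop.mp h2
      filter_upwards [eventually_ge_atTop (Nat.nth T i₀)] with k hk hTk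
      have h3 : Nat.nth T (Nat.count T k) = k := Nat.nth_count hTk
      have h4 : i₀ ≤ Nat.count T k := by
        by_contra hcon
        push Not at hcon
        have h6 : Nat.nth T (Nat.count T k) < Nat.nth T i₀ := (Nat.nth_strictMono hinf) hcon
        omega
      have h5 := hi₀ _ h4
      rw [h3, FF_one] at h5
      exact h5
    · have hfin : {k | T k}.Finite := Set.not_infinite.mp hinf
      obtain ⟨k₀, hk₀⟩ := hfin.bddAbove
      refine Eventually.of_forall fun x => ?_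
      filter_upwards [eventually_gt_atTop k₀] with k hk hTk
      have := hk₀ hTk
      omega
  filter_upwards [ae_div hθ hdiv, ae_top hθ hη c (by positivity : 0 < κ / 2), hheavy, hrate]
    with x hx1 hx2 hx3 hx4
  have hdetx := (tendsto_Nk hη).eventually (hdet (rnd x) (rnd_multS x) (divS_rnd hx1))
  have hfin : ∀ᶠ k : ℕ in atTop, |LA (prodSeq (rnd x) H) (Nk η k)| ≤ δ / 2 := by
    filter_upwards [hx2, hx3, hdetx, hwc, hx4] with k h2 h3 h4 h5' h9
    by_cases hT : T k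
    · exact h3 hT
    by_cases hC : C ≤ ∑ p ∈ PR (l3 (Nk η k)) (Nk η k), τ p / (p : ℝ)
    · have := h9 hC
      rwa [FF_one] at this
    · have h5 := h5' (not_le.mp hC).le
      apply h4
      rw [FM_rnd]
      have h6 : ∑ p ∈ TOPc c (Nk η k), τ p / (p : ℝ) < κ / 4 := by
        by_contra hcon
        push Not at hcon
        exact hT hcon
      have h7 : ∑ p ∈ TOPc c (Nk η k), θ p / (p : ℝ) =
          ∑ p ∈ TOPc c (Nk η k), τ p / (p : ℝ) +
          ∑ p ∈ TOPc c (Nk η k), max (2 * θ p - 1) 0 / (p : ℝ) := by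
        rw [← sum_add_distrib]
        refine sum_congr rfl fun p _ => ?_
        rw [← add_div, ← hsplit]
      linarith
  have h8 := net_interp hη (a := prodSeq (rnd x) H) (fun n => (abs_prodSeq _ H n).le) hfin
  filter_upwards [h8] with N hN
  linarith

/-- independent signs, no rate: all correlations vanish almost surely -/
theorem ae_vanish {θ : ℕ → ℝ} (hθ : ∀ p, θ p = (ν p).real {-1})
    (hdiv : Tendsto (fun N : ℕ => ∑ p ∈ (Icc 1 N).filter Nat.Prime, θ p / (p : ℝ)) atTop atTop)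
    (hU : ∀ C κ : ℝ, 0 < κ → ∀ᶠ N : ℕ in atTop,
      ∑ p ∈ PR (l3 N) N, min (θ p) (1 - θ p) / (p : ℝ) ≤ C →
        ∑ p ∈ TOPc 1 N, max (2 * θ p - 1) 0 / (p : ℝ) ≤ κ) :
    ∀ᵐ x ∂(Measure.infinitePi ν), Vanish (rnd x) := by
  have h1 : ∀ H : Finset ℕ, ∀ᵐ x ∂(Measure.infinitePi ν), H.Nonempty → ∀ j : ℕ, ∀ᶠ N : ℕ in atTop,
      |LA (prodSeq (rnd x) H) N| ≤ 1 / ((j:ℝ) + 1) := by
    intro H
    by_cases hne : H.Nonempty
    · have h2 : ∀ᵐ x ∂(Measure.infinitePi ν), ∀ j : ℕ, ∀ᶠ N : ℕ in atTop,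
          |LA (prodSeq (rnd x) H) N| ≤ 1 / ((j:ℝ) + 1) :=
        ae_all_iff.mpr fun j => ae_small hθ hdiv hU hne (by positivity)
      filter_upwards [h2] with x hx _ using hx
    · exact Eventually.of_forall fun x hx => absurd hx hne
  filter_upwards [ae_all_iff.mpr h1] with x hx
  intro H hne
  rw [Metric.tendsto_atTop]
  intro ε hε
  obtain ⟨j, hj⟩ := exists_nat_one_div_lt hε
  obtain ⟨N₀, hN₀⟩ := eventually_atTop.mp (hx H hne j)
  refine ⟨N₀, fun N hN => ?_⟩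
  rw [dist_zero_right, Real.norm_eq_abs]
  exact (hN₀ N hN).trans_lt hj

end Pool.Agent.Lib.P4a7640R
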