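import Mathlib
import Pool.Agent.Lib.P4a7640R.Base
import Pool.Agent.Lib.P4a7640.Stable

/-!
# Same values at the primes, along an arbitrary filter of scales

If `f` and `g` are multiplicative with the same values at all primes and the correlations of `g` vanish
along `l`, then so do those of `f`.
-/

open Filter Topology Finset

namespace Pool.Agent.Lib.P4a7640R

open Pool.Agent.Lib.P4a7640

private lemma PS_zero {B : ℕ → Prop} (hB : ∀ p : ℕ, p.Prime → ¬ B p) (y N : ℕ) : PS B y N = 0 := by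
  classical
  unfold PS
  refine sum_eq_zero fun p hp => ?_
  have h1 := (mem_filter.mp hp).2
  exact absurd h1.2 (hB p h1.1)

theorem vanishL_of_primes {l : Filter ℕ} (hl : l ≤ atTop) {f g : ℕ → ℤˣ} (hf : MultS f)
    (hg : MultS g) (h : ∀ p : ℕ, p.Prime → f p = g p) (hv : VanishL l g) : VanishL l f := by
  classical
  intro H hne
  have hh : MultS fun n => f n * g n := hf.mul hg
  obtain ⟨χ, hχ⟩ : ∃ χ : DirichletCharacter ℂ 1, χ = 1 := ⟨_, rfl⟩
  have hB : ∀ p : ℕ, p.Prime → ¬ (sgC (f p * g p) ≠ χ (p : ZMod 1)) := by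
    intro p hp
    rw [not_not, h p hp, Int.units_mul_self, hχ,
      MulChar.one_apply (isUnit_of_subsingleton _)]
    simp [sgC]
  rw [Metric.tendsto_nhds]
  intro ε hε
  -- the choice of `y`
  have hlim : Tendsto (fun y : ℕ => ∑ _j ∈ H, 2 * ((y : ℝ) * (1 / 2) ^ y + 1 / (y : ℝ)))
      atTop (𝓝 0) := by
    have l2 : Tendsto (fun y : ℕ => (y : ℝ) * (1 / 2) ^ y) atTop (𝓝 0) :=
      tendsto_self_mul_const_pow_of_lt_one (r := 1 / 2) (by norm_num) (by norm_num)
    have l3 : Tendsto (fun y : ℕ => 1 / (y : ℝ)) atTop (𝓝 0) :=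
      (tendsto_natCast_atTop_atTop (R := ℝ)).const_div_atTop 1
    have l4 := tendsto_finsetSum H (fun _ _ => (l2.add l3).const_mul 2)
    simpa using l4
  obtain ⟨y, hy1, hy0⟩ := ((hlim.eventually (eventually_lt_nhds (half_pos (half_pos hε)))).and
    (eventually_gt_atTop 0)).exists
  set δ : ℝ := (y : ℝ) * (1 / 2) ^ y + 1 / (y : ℝ) with hδ
  -- the error along `N`
  have herr : Tendsto (fun N : ℕ => ∑ j ∈ H, 2 * ((1 + 3 / Real.log N) * δ +
      3 * (j : ℝ) / Real.log N)) atTop (𝓝 (∑ _j ∈ H, 2 * δ)) := by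
    apply tendsto_finsetSum
    intro j _
    have l4 : Tendsto (fun N : ℕ => 1 + 3 / Real.log N) atTop (𝓝 1) := by
      simpa using (tendsto_logN.const_div_atTop 3).const_add 1
    have l7 : Tendsto (fun N : ℕ => 3 * (j : ℝ) / Real.log N) atTop (𝓝 0) :=
      tendsto_logN.const_div_atTop _
    have := ((l4.mul_const δ).add l7).const_mul 2
    simpa using this
  have herr' : ∀ᶠ N : ℕ in l, ∑ j ∈ H, 2 * ((1 + 3 / Real.log N) * δ +
      3 * (j : ℝ) / Real.log N) < ε / 2 :=
    hl (herr.eventually (eventually_lt_nhds (lt_trans hy1 (half_lt_self (half_pos hε)))))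
  -- the periodic part
  have hper := VanishL.twist hl hv hne (q := 1 * QQ y y) (Nat.mul_pos one_pos (QQ_pos y y))
    (P := fun n => ∏ j ∈ H, PP (fun n => f n * g n) χ y y (n + j))
    (fun n => abs_prod_PP _ χ y y H n) (fun n => prod_PP_periodic _ χ y y H n)
  have hper' : ∀ᶠ N in l, |LA (fun n => (∏ j ∈ H, PP (fun n => f n * g n) χ y y (n + j)) *
      prodSeq g H n) N| < ε / 2 :=
    ((tendsto_zero_iff_abs_tendsto_zero _).mp hper).eventually (eventually_lt_nhds (half_pos hε))
  filter_upwards [herr', hper', hl (eventually_ge_atTop 2), hl (eventually_ge_atTop y)] with N h1 h2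
    hN2 hNy
  rw [dist_zero_right, Real.norm_eq_abs]
  have hdiff := LA_diff_le hh χ y y H hN2
  have hEB := EB_le (fun p => sgC (f p * g p) ≠ χ (p : ZMod 1)) hy0 hNy
  rw [PS_zero hB, add_zero] at hEB
  have hl0 : 0 ≤ Real.log N := Real.log_natCast_nonneg N
  have h3 : ∑ j ∈ H, 2 * ((1 + 3 / Real.log N) *
      EB (fun p => sgC (f p * g p) ≠ χ (p : ZMod 1)) y y N + 3 * j / Real.log N) ≤
      ∑ j ∈ H, 2 * ((1 + 3 / Real.log N) * δ + 3 * (j : ℝ) / Real.log N) := by
    refine sum_le_sum fun j _ => ?_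
    have h4 : (1 + 3 / Real.log N) * EB (fun p => sgC (f p * g p) ≠ χ (p : ZMod 1)) y y N ≤
        (1 + 3 / Real.log N) * δ := mul_le_mul_of_nonneg_left hEB (by positivity)
    linarith
  have h5 := abs_sub_abs_le_abs_sub (LA (prodSeq f H) N)
    (LA (fun n => (∏ j ∈ H, PP (fun n => f n * g n) χ y y (n + j)) * prodSeq g H n) N)
  linarith

end Pool.Agent.Lib.P4a7640R
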