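import Mathlib
import Pool.Agent.Lib.P4a7640R.Base

/-!
# A deterministic set of scales of upper logarithmic density one

Module P4R.WinSet (2.5 h).  Deterministic.

CONSTRUCTION.  `T(y, N) = ∑_{p ∈ PR y N} τ p / p → ∞` as `N → ∞` for every fixed `y`.  For `i ≥ 1` the
`i`-th window is `[M_i, M_i^(2^i)]`, its net points are `N_{i,j} = M_i ^ ..` with
`N_{i,j} = ⌈exp (exp (j/i) * log M_i)⌉₊`, `0 ≤ j ≤ J_i = i^2` (`exp (J_i/i) = e^i ≥ 2^i`).  Enumerate all net
points in one sequence `NN t` (for instance block `i` has `i^2+1` points: `t = ∑_{i' < i} (i'^2+1) + j`; or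
simpler: give block `i` the indices `t ∈ [i^3, (i+1)^3)` and repeat the last point; then `i ≤ t^(1/3) `,
`√t ≤ (i+1)^2`).  Choose `M_i` recursively with `M_i ≥ i + 3`, `M_{i+1} > M_i ^ (2 ^ (i+1)) + M_i^..` (larger than
all points of block `i`) and `T((i+1)^2, M_i) ≥ i`.  Then `NN` is nondecreasing, tends to infinity and
`∑_{p ∈ PR √t (NN t)} τ p / p ≥ T((i+1)^2, M_i) ≥ i → ∞`.
`S = ⋃_i [M_i, M_i^(2^i)]`.  Density along `K i = M_i^(2^i)`:
`(1/log K_i) ∑_{M_i ≤ N ≤ K_i} 1/N ≥ (log (K_i + 1) - log M_i)/log K_i ≥ 1 - 2^-i`, and at most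
`(1 + log K_i)/log K_i`.
Interpolation: for `N ∈ S` in block `i` there is `j < J_i` with `N_{i,j} ≤ N ≤ N_{i,j+1}` and `LA_step`
(`Lib/P4a7640/Interp.lean`) gives `|LA a N| ≤ |LA a N_{i,j}| + (log N_{i,j+1}/log N_{i,j} - 1)`-type bound (see the
proof of `net_interp` in `Lib/P4a7640L/Net.lean`), where the ratio of the logarithms is
`≤ exp (1/i) + 1/log M_i → 1`.
You may change the construction as long as the statement is kept.
-/

open Filter Topology Finset

namespace Pool.Agent.Lib.P4a7640R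

open Pool.Agent.Lib.P4a7640

lemma ws_log_ge (x : ℝ) : x ≤ Real.log (⌈Real.exp x⌉₊ : ℕ) := by
  have h1 : Real.exp x ≤ (⌈Real.exp x⌉₊ : ℕ) := Nat.le_ceil _
  calc x = Real.log (Real.exp x) := (Real.log_exp x).symm
    _ ≤ _ := Real.log_le_log (Real.exp_pos _) h1

lemma ws_log_le {x : ℝ} (hx : 0 ≤ x) : Real.log (⌈Real.exp x⌉₊ : ℕ) ≤ x + 1 := by
  have h1 : ((⌈Real.exp x⌉₊ : ℕ) : ℝ) ≤ Real.exp x + 1 :=
    (Nat.ceil_lt_add_one (Real.exp_pos _).le).le
  have h2 : Real.exp x + 1 ≤ Real.exp (x + 1) := by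
    rw [Real.exp_add]
    have h3 : 1 ≤ Real.exp x := Real.one_le_exp hx
    have h4 : (2:ℝ) ≤ Real.exp 1 := by
      have := Real.add_one_le_exp (1:ℝ)
      linarith
    nlinarith
  have h5 : (0:ℝ) < (⌈Real.exp x⌉₊ : ℕ) := lt_of_lt_of_le (Real.exp_pos _) (Nat.le_ceil _)
  rw [← Real.log_exp (x + 1)]
  exact Real.log_le_log h5 (h1.trans h2)

lemma ws_log_step {n : ℕ} (hn : 1 ≤ n) :
    Real.log ((n + 1 : ℕ) : ℝ) - Real.log n ≤ 1 / (n:ℝ) := by
  have hn0 : (0:ℝ) < n := by exact_mod_cast hn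
  rw [← Real.log_div (by positivity) hn0.ne']
  have h := Real.log_le_sub_one_of_pos (show (0:ℝ) < ((n + 1 : ℕ) : ℝ) / n by positivity)
  refine h.trans (le_of_eq ?_)
  push_cast
  field_simp
  ring

lemma ws_sum_ge {M K : ℕ} (hM : 1 ≤ M) (hMK : M ≤ K) :
    Real.log ((K + 1 : ℕ) : ℝ) - Real.log M ≤ ∑ n ∈ Icc M K, (1:ℝ) / n := by
  induction K, hMK using Nat.le_induction with
  | base =>
    rw [Icc_self, sum_singleton]
    exact ws_log_step hM
  | succ K hMK ih =>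
    rw [← Finset.insert_Icc_right_eq_Icc_add_one (by omega), Finset.sum_insert (by simp)]
    have h := ws_log_step (n := K + 1) (by omega)
    linarith

lemma ws_sum_le {K : ℕ} (hK : 1 ≤ K) :
    ∑ n ∈ Icc 1 K, (1:ℝ) / n ≤ 1 + Real.log K := by
  have h := sum_Ioc_inv_le (a := 1) (b := K) le_rfl hK
  rw [← Finset.sum_Ioc_add_eq_sum_Icc hK]
  simp only [Nat.cast_one, Real.log_one, sub_zero] at h
  have h2 : (1:ℝ) / ((1:ℕ):ℝ) = 1 := by norm_num
  rw [h2]
  linarith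

/-- the logarithm of the `j`-th net point of the `i`-th window -/
noncomputable def wL (m : ℕ → ℕ) (i j : ℕ) : ℝ := Real.exp ((j:ℝ) / Real.sqrt i) * m i

/-- the `j`-th net point of the `i`-th window -/
noncomputable def wP (m : ℕ → ℕ) (i j : ℕ) : ℕ := ⌈Real.exp (wL m i j)⌉₊

/-- the sequence of all net points -/
noncomputable def wN (m : ℕ → ℕ) (t : ℕ) : ℕ := wP m (Nat.sqrt t) (t - Nat.sqrt t ^ 2)

lemma wN_eq (m : ℕ → ℕ) {i j : ℕ} (hj : j ≤ i + i) : wN m (i ^ 2 + j) = wP m i j := by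
  unfold wN
  rw [Nat.sqrt_add_eq' i hj, Nat.add_sub_cancel_left]

lemma wL_ge (m : ℕ → ℕ) (i j : ℕ) : (m i : ℝ) ≤ wL m i j := by
  unfold wL
  have h : 1 ≤ Real.exp ((j:ℝ) / Real.sqrt i) := Real.one_le_exp (by positivity)
  have h2 : (0:ℝ) ≤ m i := Nat.cast_nonneg _
  nlinarith

lemma wP_ge (m : ℕ → ℕ) (i j : ℕ) : m i + 1 ≤ wP m i j := by
  have h1 := wL_ge m i j
  have h2 : Real.exp (wL m i j) ≤ wP m i j := Nat.le_ceil _
  have h3 := Real.add_one_le_exp (wL m i j)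
  have h4 : ((m i + 1 : ℕ) : ℝ) ≤ wP m i j := by
    push_cast
    linarith
  exact_mod_cast h4

lemma wP_log_ge (m : ℕ → ℕ) (i j : ℕ) : wL m i j ≤ Real.log (wP m i j) := ws_log_ge _

lemma wP_log_le (m : ℕ → ℕ) (i j : ℕ) : Real.log (wP m i j) ≤ wL m i j + 1 :=
  ws_log_le ((Nat.cast_nonneg _).trans (wL_ge m i j))

lemma wL_zero (m : ℕ → ℕ) (i : ℕ) : wL m i 0 = m i := by
  unfold wL
  simp

lemma wL_end (m : ℕ → ℕ) (i : ℕ) : wL m i (i + i) = Real.exp (2 * Real.sqrt i) * m i := by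
  unfold wL
  have h : ((i + i : ℕ) : ℝ) / Real.sqrt i = 2 * Real.sqrt i := by
    push_cast
    have h1 := Real.div_sqrt (x := (i:ℝ))
    calc ((i:ℝ) + i) / Real.sqrt i = 2 * ((i:ℝ) / Real.sqrt i) := by ring
      _ = _ := by rw [h1]
  rw [h]

lemma wL_succ (m : ℕ → ℕ) (i j : ℕ) :
    wL m i (j + 1) = Real.exp (1 / Real.sqrt i) * wL m i j := by
  unfold wL
  have h : ((j + 1 : ℕ) : ℝ) / Real.sqrt i = 1 / Real.sqrt i + (j:ℝ) / Real.sqrt i := by
    push_cast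
    ring
  rw [h, Real.exp_add]
  ring

lemma ws_find {f : ℕ → ℕ} {N : ℕ} : ∀ J : ℕ, 1 ≤ J → f 0 ≤ N → N ≤ f J →
    ∃ j < J, f j ≤ N ∧ N ≤ f (j + 1) := by
  intro J
  induction J with
  | zero => intro h; omega
  | succ J ih =>
    intro _ h0 hJ
    by_cases hJ0 : J = 0
    · subst hJ0
      exact ⟨0, by omega, h0, hJ⟩
    · by_cases hN : N ≤ f J
      · obtain ⟨j, hj, h1, h2⟩ := ih (by omega) h0 hN
        exact ⟨j, by omega, h1, h2⟩
      · exact ⟨J, by omega, by omega, hJ⟩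

lemma ws_sqrt_tendsto : Tendsto (fun i : ℕ => Real.sqrt i) atTop atTop :=
  Real.tendsto_sqrt_atTop.comp tendsto_natCast_atTop_atTop

lemma ws_natsqrt_tendsto : Tendsto Nat.sqrt atTop atTop := by
  rw [tendsto_atTop]
  intro b
  filter_upwards [eventually_ge_atTop (b ^ 2)] with t ht
  exact Nat.le_sqrt'.mpr ht

lemma ws_strictMono {m : ℕ → ℕ} (hm : StrictMono m) : StrictMono fun i => wP m i (i + i) := by
  apply strictMono_nat_of_lt_succ
  intro i
  have h1 : wL m i (i + i) + 1 ≤ wL m (i + 1) ((i + 1) + (i + 1)) := by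
    rw [wL_end, wL_end]
    have h2 : Real.exp (2 * Real.sqrt i) ≤ Real.exp (2 * Real.sqrt ((i + 1 : ℕ) : ℝ)) := by
      apply Real.exp_le_exp.mpr
      have := Real.sqrt_le_sqrt (show (i:ℝ) ≤ ((i + 1 : ℕ) : ℝ) by push_cast; linarith)
      linarith
    have h3 : (m i : ℝ) + 1 ≤ m (i + 1) := by exact_mod_cast hm (Nat.lt_succ_self i)
    have h4 : 1 ≤ Real.exp (2 * Real.sqrt i) := Real.one_le_exp (by positivity)
    have h5 : (0:ℝ) ≤ m i := Nat.cast_nonneg _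
    calc Real.exp (2 * Real.sqrt i) * m i + 1 ≤ Real.exp (2 * Real.sqrt i) * (m i + 1) := by
          nlinarith
      _ ≤ Real.exp (2 * Real.sqrt ((i + 1 : ℕ) : ℝ)) * m (i + 1) :=
          mul_le_mul h2 h3 (by positivity) (Real.exp_pos _).le
  have h2 : Real.exp (wL m i (i + i)) + 1 ≤ Real.exp (wL m (i + 1) ((i + 1) + (i + 1))) := by
    refine le_trans ?_ (Real.exp_le_exp.mpr h1)
    rw [Real.exp_add]
    have h3 : 1 ≤ Real.exp (wL m i (i + i)) :=
      Real.one_le_exp ((Nat.cast_nonneg _).trans (wL_ge m i (i + i)))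
    have h4 : (2:ℝ) ≤ Real.exp 1 := by
      have := Real.add_one_le_exp (1:ℝ)
      linarith
    nlinarith
  have h3 : ((wP m i (i + i) : ℕ) : ℝ) < Real.exp (wL m i (i + i)) + 1 :=
    Nat.ceil_lt_add_one (Real.exp_pos _).le
  have h4 : Real.exp (wL m (i + 1) ((i + 1) + (i + 1))) ≤ wP m (i + 1) ((i + 1) + (i + 1)) :=
    Nat.le_ceil _
  have h5 : ((wP m i (i + i) : ℕ) : ℝ) < wP m (i + 1) ((i + 1) + (i + 1)) := by linarith
  exact_mod_cast h5

lemma ws_le_end (m : ℕ → ℕ) (i : ℕ) : wP m i 0 ≤ wP m i (i + i) := by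
  unfold wP
  apply Nat.ceil_le_ceil
  apply Real.exp_le_exp.mpr
  rw [wL_zero]
  exact wL_ge m i (i + i)

/-- the union of the windows -/
def wS (m : ℕ → ℕ) : Set ℕ := {N | ∃ i, wP m i 0 ≤ N ∧ N ≤ wP m i (i + i)}

lemma ws_upDens {m : ℕ → ℕ} (hm : StrictMono m) (hm1 : ∀ i, i + 1 ≤ m i) : UpDens (wS m) := by
  classical
  unfold UpDens
  refine ⟨fun i => wP m i (i + i), ws_strictMono hm, ?_⟩
  have hKtop : Tendsto (fun i => wP m i (i + i)) atTop atTop := (ws_strictMono hm).tendsto_atTop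
  have hlogtop : Tendsto (fun i => Real.log (wP m i (i + i))) atTop atTop :=
    tendsto_logN.comp hKtop
  have hupper : Tendsto (fun i => 1 / Real.log (wP m i (i + i)) + 1) atTop (𝓝 1) := by
    have := (hlogtop.const_div_atTop 1).add_const 1
    simpa using this
  have hlower : Tendsto (fun i : ℕ => 1 - 2 * Real.exp (-(2 * Real.sqrt i))) atTop (𝓝 1) := by
    have h1 : Tendsto (fun i : ℕ => 2 * Real.sqrt i) atTop atTop :=
      ws_sqrt_tendsto.const_mul_atTop (by norm_num)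
    have h2 : Tendsto (fun i : ℕ => Real.exp (-(2 * Real.sqrt i))) atTop (𝓝 0) :=
      Real.tendsto_exp_neg_atTop_nhds_zero.comp h1
    have := (h2.const_mul 2).const_sub 1
    simpa using this
  refine tendsto_of_tendsto_of_tendsto_of_le_of_le hlower hupper ?_ ?_
  · intro i
    show 1 - 2 * Real.exp (-(2 * Real.sqrt i)) ≤ _ / Real.log (wP m i (i + i))
    set K := wP m i (i + i) with hK
    set M := wP m i 0 with hM
    have hmi : (1:ℝ) ≤ m i := by exact_mod_cast (show 1 ≤ m i by have := hm1 i; omega)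
    have hM1 : 1 ≤ M := by
      have := wP_ge m i 0
      omega
    have hMK : M ≤ K := ws_le_end m i
    have hlK : Real.exp (2 * Real.sqrt i) * m i ≤ Real.log K := by
      have := wP_log_ge m i (i + i)
      rwa [wL_end] at this
    have hlM : Real.log M ≤ m i + 1 := by
      have := wP_log_le m i 0
      rwa [wL_zero] at this
    have he := Real.exp_pos (2 * Real.sqrt i)
    have hlK0 : 0 < Real.log K := lt_of_lt_of_le (by positivity) hlK
    have hsum : Real.log K - Real.log M ≤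
        ∑ N ∈ (Icc 1 K).filter (fun N => N ∈ wS m), (1:ℝ) / N := by
      have h1 := ws_sum_ge hM1 hMK
      have h2 : Real.log (K:ℝ) ≤ Real.log ((K + 1 : ℕ) : ℝ) := by
        apply Real.log_le_log
        · exact_mod_cast (show 0 < K by omega)
        · push_cast
          linarith
      have h3 : ∑ n ∈ Icc M K, (1:ℝ) / n ≤
          ∑ N ∈ (Icc 1 K).filter (fun N => N ∈ wS m), (1:ℝ) / N := by
        apply sum_le_sum_of_subset_of_nonneg
        · intro N hN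
          obtain ⟨h4, h5⟩ := mem_Icc.mp hN
          exact mem_filter.mpr ⟨mem_Icc.mpr ⟨hM1.trans h4, h5⟩, ⟨i, h4, h5⟩⟩
        · intro _ _ _
          positivity
      linarith
    rw [le_div_iff₀ hlK0]
    refine le_trans ?_ hsum
    have h6 : Real.log M ≤ 2 * Real.exp (-(2 * Real.sqrt i)) * Real.log K := by
      calc Real.log M ≤ 2 * m i := by linarith
        _ = 2 * Real.exp (-(2 * Real.sqrt i)) * (Real.exp (2 * Real.sqrt i) * m i) := by
            rw [Real.exp_neg]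
            field_simp
        _ ≤ _ := mul_le_mul_of_nonneg_left hlK (by positivity)
    linarith
  · intro i
    show _ / Real.log (wP m i (i + i)) ≤ 1 / Real.log (wP m i (i + i)) + 1
    set K := wP m i (i + i) with hK
    have hK2 : 2 ≤ K := by
      have h1 := wP_ge m i (i + i)
      have h2 := hm1 i
      omega
    have hlK0 : 0 < Real.log K := Real.log_pos (by exact_mod_cast hK2)
    rw [div_add_one hlK0.ne']
    apply div_le_div_of_nonneg_right _ hlK0.le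
    refine le_trans ?_ (ws_sum_le (show 1 ≤ K by omega))
    refine sum_le_sum_of_subset_of_nonneg (filter_subset _ _) ?_
    intro _ _ _
    positivity

lemma ws_ratio {m : ℕ → ℕ} (hm1 : ∀ i, i + 1 ≤ m i) (i j : ℕ) :
    Real.log (wP m i (j + 1)) / Real.log (wP m i j) ≤ Real.exp (1 / Real.sqrt i) + 1 / (m i) := by
  have hmi : (1:ℝ) ≤ m i := by exact_mod_cast (show 1 ≤ m i by have := hm1 i; omega)
  have h1 := wL_ge m i j
  have h2 := wP_log_ge m i j
  have h3 := wP_log_le m i (j + 1)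
  rw [wL_succ] at h3
  have h4 : 0 < wL m i j := by linarith
  have h5 : 0 < Real.log (wP m i j) := by linarith
  have he := Real.exp_pos (1 / Real.sqrt i)
  calc Real.log (wP m i (j + 1)) / Real.log (wP m i j)
      ≤ (Real.exp (1 / Real.sqrt i) * wL m i j + 1) / Real.log (wP m i j) :=
        div_le_div_of_nonneg_right h3 h5.le
    _ ≤ (Real.exp (1 / Real.sqrt i) * wL m i j + 1) / wL m i j :=
        div_le_div_of_nonneg_left (by positivity) h4 h2
    _ = Real.exp (1 / Real.sqrt i) + 1 / wL m i j := by field_simp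
    _ ≤ _ := by
        have : 1 / wL m i j ≤ 1 / (m i : ℝ) := one_div_le_one_div_of_le (by linarith) h1
        linarith

lemma ws_interp {m : ℕ → ℕ} (hm : StrictMono m) (hm1 : ∀ i, i + 1 ≤ m i) {a : ℕ → ℝ}
    (ha : ∀ n, |a n| ≤ 1) (h : Tendsto (fun i => LA a (wN m i)) atTop (𝓝 0)) :
    Tendsto (LA a) (atTop ⊓ 𝓟 (wS m)) (𝓝 0) := by
  rw [Metric.tendsto_nhds]
  intro ε hε
  rw [eventually_inf_principal]
  obtain ⟨T, hT⟩ := (Metric.tendsto_atTop.mp h) (ε / 2) (by positivity)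
  have hratio : Tendsto (fun i : ℕ => Real.exp (1 / Real.sqrt i) + 1 / (m i : ℝ)) atTop
      (𝓝 (Real.exp 0 + 0)) := by
    apply Tendsto.add
    · exact (Real.continuous_exp.tendsto 0).comp (ws_sqrt_tendsto.const_div_atTop 1)
    · exact (tendsto_natCast_atTop_atTop.comp hm.tendsto_atTop).const_div_atTop 1
  rw [Real.exp_zero, add_zero] at hratio
  obtain ⟨I₀, hI₀⟩ := (Metric.tendsto_atTop.mp hratio) (ε / 2) (by positivity)
  set I := max T (max I₀ 1) with hI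
  set B := (range I).sup (fun i => wP m i (i + i)) with hB
  filter_upwards [eventually_gt_atTop B] with N hN hNS
  obtain ⟨i, hi1, hi2⟩ := hNS
  have hiI : I ≤ i := by
    by_contra hcon
    have h1 : wP m i (i + i) ≤ B :=
      Finset.le_sup (f := fun i => wP m i (i + i)) (mem_range.mpr (not_le.mp hcon))
    omega
  have hiT : T ≤ i := (le_max_left _ _).trans hiI
  have hiI₀ : I₀ ≤ i := ((le_max_left _ _).trans (le_max_right _ _)).trans hiI
  have hi1' : 1 ≤ i := ((le_max_right _ _).trans (le_max_right _ _)).trans hiI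
  obtain ⟨j, hj, hj1, hj2⟩ := ws_find (f := wP m i) (i + i) (by omega) hi1 hi2
  have hA2 : 2 ≤ wP m i j := by
    have h1 := wP_ge m i j
    have h2 := hm1 i
    omega
  have h4 := LA_step ha hA2 hj1 hj2
  have h5 := hT (i ^ 2 + j) (by nlinarith)
  rw [wN_eq m hj.le] at h5
  have h6 := hI₀ i hiI₀
  rw [dist_zero_right, Real.norm_eq_abs] at h5 ⊢
  rw [Real.dist_eq] at h6
  have h7 := (abs_lt.mp h6).2
  have h8 := ws_ratio hm1 i j
  linarith

lemma ws_mass {τ : ℕ → ℝ} (hτ : ∀ p, 0 ≤ τ p)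
    (hdiv : Tendsto (fun N : ℕ => ∑ p ∈ (Icc 1 N).filter Nat.Prime, τ p / (p : ℝ)) atTop atTop)
    (i : ℕ) : ∃ n : ℕ, ∀ N ≥ n, (i:ℝ) ≤ ∑ p ∈ PR ((i:ℝ) + 1) N, τ p / (p : ℝ) := by
  obtain ⟨n, hn⟩ := eventually_atTop.mp (hdiv.eventually (eventually_ge_atTop
    ((i:ℝ) + ∑ p ∈ (Icc 1 (i + 1)).filter Nat.Prime, τ p / (p : ℝ))))
  refine ⟨n, fun N hN => ?_⟩
  have h1 := hn N hN
  have h2 : (Icc 1 N).filter Nat.Prime ⊆ PR ((i:ℝ) + 1) N ∪ (Icc 1 (i + 1)).filter Nat.Prime := by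
    intro p hp
    obtain ⟨hp1, hpp⟩ := mem_filter.mp hp
    obtain ⟨hp2, hp3⟩ := mem_Icc.mp hp1
    by_cases h : p ≤ i + 1
    · exact mem_union_right _ (mem_filter.mpr ⟨mem_Icc.mpr ⟨hp2, h⟩, hpp⟩)
    · apply mem_union_left
      refine mem_PR.mpr ⟨hp3, hpp, ?_⟩
      have : ((i + 1 : ℕ) : ℝ) < p := by exact_mod_cast not_le.mp h
      push_cast at this
      exact this
  have hnn : ∀ p : ℕ, 0 ≤ τ p / (p:ℝ) := fun p => div_nonneg (hτ p) (Nat.cast_nonneg p)
  have h3 : ∑ p ∈ (Icc 1 N).filter Nat.Prime, τ p / (p : ℝ) ≤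
      ∑ p ∈ PR ((i:ℝ) + 1) N ∪ (Icc 1 (i + 1)).filter Nat.Prime, τ p / (p : ℝ) :=
    sum_le_sum_of_subset_of_nonneg h2 fun p _ _ => hnn p
  have h4 := sum_union_inter (s₁ := PR ((i:ℝ) + 1) N) (s₂ := (Icc 1 (i + 1)).filter Nat.Prime)
    (f := fun p => τ p / (p : ℝ))
  have h5 : 0 ≤ ∑ p ∈ PR ((i:ℝ) + 1) N ∩ (Icc 1 (i + 1)).filter Nat.Prime, τ p / (p : ℝ) :=
    sum_nonneg fun p _ => hnn p
  linarith

theorem win_set {τ : ℕ → ℝ} (hτ : ∀ p, 0 ≤ τ p) (hτ1 : ∀ p, τ p ≤ 1)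
    (hdiv : Tendsto (fun N : ℕ => ∑ p ∈ (Icc 1 N).filter Nat.Prime, τ p / (p : ℝ)) atTop atTop) :
    ∃ (S : Set ℕ) (NN : ℕ → ℕ), UpDens S ∧ Tendsto NN atTop atTop ∧
      (atTop ⊓ 𝓟 S : Filter ℕ).NeBot ∧
      Tendsto (fun i : ℕ => ∑ p ∈ PR (Real.sqrt i) (NN i), τ p / (p : ℝ)) atTop atTop ∧
      ∀ a : ℕ → ℝ, (∀ n, |a n| ≤ 1) → Tendsto (fun i => LA a (NN i)) atTop (𝓝 0) →
        Tendsto (LA a) (atTop ⊓ 𝓟 S) (𝓝 0) := by
  choose n hn using ws_mass hτ hdiv
  set m : ℕ → ℕ := fun i => ∑ k ∈ range (i + 1), (n k + 1) with hmdef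
  have hm : StrictMono m := by
    apply strictMono_nat_of_lt_succ
    intro i
    show ∑ k ∈ range (i + 1), (n k + 1) < ∑ k ∈ range (i + 1 + 1), (n k + 1)
    rw [sum_range_succ _ (i + 1)]
    omega
  have hm1 : ∀ i, i + 1 ≤ m i := by
    intro i
    calc i + 1 = ∑ k ∈ range (i + 1), 1 := by simp
      _ ≤ ∑ k ∈ range (i + 1), (n k + 1) := sum_le_sum fun k _ => by omega
  have hmn : ∀ i, n i ≤ m i := by
    intro i
    show n i ≤ ∑ k ∈ range (i + 1), (n k + 1)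
    rw [sum_range_succ]
    omega
  have hNge : ∀ t, m (Nat.sqrt t) ≤ wN m t := by
    intro t
    have := wP_ge m (Nat.sqrt t) (t - Nat.sqrt t ^ 2)
    unfold wN
    omega
  refine ⟨wS m, wN m, ws_upDens hm hm1, ?_, ?_, ?_, fun a ha h => ws_interp hm hm1 ha h⟩
  · exact tendsto_atTop_mono hNge (hm.tendsto_atTop.comp ws_natsqrt_tendsto)
  · rw [inf_principal_neBot_iff]
    intro U hU
    obtain ⟨N₀, hN₀⟩ := mem_atTop_sets.mp hU
    refine ⟨wP m N₀ (N₀ + N₀), hN₀ _ ?_, ⟨N₀, ws_le_end m N₀, le_rfl⟩⟩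
    exact (ws_strictMono hm).le_apply
  · have h1 : Tendsto (fun t : ℕ => ((Nat.sqrt t : ℕ) : ℝ)) atTop atTop :=
      tendsto_natCast_atTop_atTop.comp ws_natsqrt_tendsto
    refine tendsto_atTop_mono (fun t => ?_) h1
    refine (hn (Nat.sqrt t) (m (Nat.sqrt t)) (hmn _)).trans ?_
    apply sum_le_sum_of_subset_of_nonneg
    · intro p hp
      obtain ⟨h2, h3, h4⟩ := mem_PR.mp hp
      refine mem_PR.mpr ⟨h2.trans (hNge t), h3, lt_of_le_of_lt ?_ h4⟩
      rw [Real.sqrt_le_iff]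
      refine ⟨by positivity, ?_⟩
      have h5 := Nat.lt_succ_sqrt' t
      have h6 : (t:ℝ) < ((Nat.sqrt t + 1 : ℕ) : ℝ) ^ 2 := by exact_mod_cast h5
      push_cast at h6
      exact h6.le
    · intro p _ _
      exact div_nonneg (hτ p) (Nat.cast_nonneg p)

end Pool.Agent.Lib.P4a7640R
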