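import Mathlib
import Pool.Agent.Lib.P4a7640R.Main
import Pool.Agent.Lib.P4a7640R.WinSet
import Pool.Agent.Lib.P4a7640R.StableL

/-!
# The three cases
-/

open MeasureTheory ProbabilityTheory Filter Topology Finset

namespace Pool.Agent.Lib.P4a7640R

open Pool.Agent.Lib.P4a7640 Pool.Agent.Lib.P4a7640L Pool.Agent.Lib.P4a7640D

namespace FinalAux

open MainAux

/-- transfer of an almost sure statement from the product space -/
lemma transfer {Ω : Type*} [MeasurableSpace Ω] {P : Measure Ω} [IsProbabilityMeasure P]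
    {ε : ℕ → Ω → ℤˣ} (hε : ∀ p, Measurable (ε p)) (hind : iIndepFun ε P) {Q : SS → Prop}
    (h : ∀ᵐ x ∂(Measure.infinitePi fun p => P.map (ε p)), Q x) : ∀ᵐ ω ∂P, Q fun p => ε p ω := by
  have : ∀ p, IsProbabilityMeasure (P.map (ε p)) := fun p =>
    Measure.isProbabilityMeasure_map (hε p).aemeasurable
  have hmap := (iIndepFun_iff_map_fun_eq_infinitePi_map (fun p => hε p)).mp hind
  rw [← hmap] at h
  exact ae_of_ae_map (measurable_pi_lambda _ hε).aemeasurable h

lemma real_neg_one {Ω : Type*} [MeasurableSpace Ω] {P : Measure Ω} {ε : Ω → ℤˣ} (hε : Measurable ε) :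
    (P.map ε).real {-1} = P.real {ω | ε ω = -1} := by
  rw [map_measureReal_apply hε (measurableSet_singleton _)]
  rfl

lemma real_one {Ω : Type*} [MeasurableSpace Ω] {P : Measure Ω} [IsProbabilityMeasure P] {ε : Ω → ℤˣ}
    (hε : Measurable ε) : 1 - (P.map ε).real {-1} = P.real {ω | ε ω = 1} := by
  have hms : MeasurableSet {ω | ε ω = -1} := hε (measurableSet_singleton _)
  rw [real_neg_one hε, ← probReal_compl_eq_one_sub hms]
  congr 1
  ext ω
  rw [Set.mem_compl_iff, Set.mem_setOf_eq, Set.mem_setOf_eq]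
  rcases Int.units_eq_one_or (ε ω) with h | h
  · rw [h]
    simp
  · rw [h]
    simp

/-- bounded mass of `{p : f p ≠ g p}` preserves finite distance -/
lemma DD_le (f g : ℕ → ℤˣ) {q : ℕ} (χ : DirichletCharacter ℂ q) (N : ℕ) :
    DD f χ 0 N ≤ DD g χ 0 N + 2 * FM (fun p => f p * g p) ((Icc 1 N).filter Nat.Prime) := by
  have h0 : (Ioc 0 N).filter Nat.Prime = (Icc 1 N).filter Nat.Prime := by
    ext p
    simp only [mem_filter, mem_Ioc, mem_Icc]
    constructor <;> rintro ⟨⟨h1, h2⟩, h3⟩ <;> exact ⟨⟨by omega, h2⟩, h3⟩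
  unfold DD FM
  rw [h0, mul_sum, ← sum_add_distrib]
  refine sum_le_sum fun p hp => ?_
  have hpp : p.Prime := (mem_filter.mp hp).2
  have hp0 : (0:ℝ) < p := by exact_mod_cast hpp.pos
  have hz : ‖χ (p : ZMod q)‖ ≤ 1 := DirichletCharacter.norm_le_one χ _
  rcases Int.units_eq_one_or (f p * g p) with h | h
  · have hfg : f p = g p := by
      have h1 : f p * g p * g p = g p := by rw [h, one_mul]
      rw [mul_assoc, Int.units_mul_self, mul_one] at h1
      exact h1
    have hn : ¬ (fun p => f p * g p) p = -1 := by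
      show ¬ f p * g p = -1
      rw [h]
      decide
    rw [if_neg hn, hfg]
    linarith
  · rw [if_pos (show (fun p => f p * g p) p = -1 from h)]
    rw [re_term, re_term]
    have hre : |(χ (p : ZMod q)).re| ≤ 1 := (Complex.abs_re_le_norm _).trans hz
    have h1 : |sg (f p) * (χ (p : ZMod q)).re| ≤ 1 := by
      rw [abs_mul, abs_sg, one_mul]
      exact hre
    have h2 : |sg (g p) * (χ (p : ZMod q)).re| ≤ 1 := by
      rw [abs_mul, abs_sg, one_mul]
      exact hre
    rw [abs_le] at h1 h2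
    rw [show 2 * (1 / (p:ℝ)) = 2 / p by ring, ← add_div]
    apply div_le_div_of_nonneg_right _ hp0.le
    linarith

end FinalAux

open MainAux FinalAux

/-- The quantity of randomness above the triple logarithm: `∑_{log log log N < p ≤ N} min(..)/p`. -/
noncomputable def Rich {Ω : Type*} [MeasurableSpace Ω] (P : Measure Ω) (ε : ℕ → Ω → ℤˣ) (N : ℕ) : ℝ :=
  ∑ p ∈ PR (l3 N) N, min (P.real {ω | ε p ω = 1}) (P.real {ω | ε p ω = -1}) / (p : ℝ)

/-- The bias against `g` on the window `√N < p ≤ N`. -/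
noncomputable def Against {Ω : Type*} [MeasurableSpace Ω] (P : Measure Ω) (ε : ℕ → Ω → ℤˣ)
    (g : ℕ → ℤˣ) (N : ℕ) : ℝ :=
  ∑ p ∈ TOPc 1 N, max (P.real {ω | ε p ω ≠ g p} - P.real {ω | ε p ω = g p}) 0 / (p : ℝ)

/-- Case 1: the dichotomy. -/
theorem case_one {Ω : Type*} [MeasurableSpace Ω] {P : Measure Ω} [IsProbabilityMeasure P]
    {ε : ℕ → Ω → ℤˣ} (hε : ∀ p, Measurable (ε p)) (hind : iIndepFun ε P) {g : ℕ → ℤˣ}
    (hna : ¬ Aperiodic g)
    (hU : ∀ C κ : ℝ, 0 < κ → ∀ᶠ N : ℕ in atTop, Rich P ε N ≤ C → Against P ε g N ≤ κ) :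
    ∀ᵐ ω ∂P, ∀ f : ℕ → ℤˣ, MultS f → (∀ p : ℕ, p.Prime → f p = ε p ω) →
      ¬ Aperiodic f ∨ FairSystem f := by
  classical
  set ε' : ℕ → Ω → ℤˣ := fun p ω => ε p ω * g p with hε'd
  have hε' : ∀ p, Measurable (ε' p) := fun p =>
    (measurable_of_countable fun u : ℤˣ => u * g p).comp (hε p)
  have hind' : iIndepFun ε' P := hind.comp (fun p u => u * g p) fun p => measurable_of_countable _
  have hpm : ∀ p, IsProbabilityMeasure (P.map (ε' p)) := fun p =>
    Measure.isProbabilityMeasure_map (hε' p).aemeasurable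
  have hneg : ∀ p, {ω | ε' p ω = -1} = {ω | ε p ω ≠ g p} := by
    intro p
    ext ω
    rw [Set.mem_setOf_eq, Set.mem_setOf_eq, hε'd]
    rcases Int.units_eq_one_or (ε p ω) with h | h <;> rcases Int.units_eq_one_or (g p) with h' | h' <;>
      simp [h, h']
  have hpos : ∀ p, {ω | ε' p ω = 1} = {ω | ε p ω = g p} := by
    intro p
    ext ω
    rw [Set.mem_setOf_eq, Set.mem_setOf_eq, hε'd]
    rcases Int.units_eq_one_or (ε p ω) with h | h <;> rcases Int.units_eq_one_or (g p) with h' | h' <;>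
      simp [h, h']
  set θ : ℕ → ℝ := fun p => (P.map (ε' p)).real {-1} with hθd
  have hθ2 : ∀ p, 2 * θ p - 1 = P.real {ω | ε p ω ≠ g p} - P.real {ω | ε p ω = g p} := by
    intro p
    have h1 := real_one (P := P) (hε' p)
    have h2 := real_neg_one (P := P) (hε' p)
    rw [← hneg p, ← hpos p, ← h1, ← h2]
    ring
  have hθ1' : ∀ p, θ p = P.real {ω | ε p ω ≠ g p} := by
    intro p
    rw [← hneg p, ← real_neg_one (P := P) (hε' p)]
  have hθ2' : ∀ p, 1 - θ p = P.real {ω | ε p ω = g p} := by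
    intro p
    rw [← hpos p, ← real_one (P := P) (hε' p)]
  have hmin : ∀ p, min (θ p) (1 - θ p) = min (P.real {ω | ε p ω = 1}) (P.real {ω | ε p ω = -1}) := by
    intro p
    rw [hθ2', hθ1']
    rcases Int.units_eq_one_or (g p) with h | h
    · rw [h]
      have h1 : {ω | ε p ω ≠ 1} = {ω | ε p ω = -1} := by
        ext ω
        rw [Set.mem_setOf_eq, Set.mem_setOf_eq]
        rcases Int.units_eq_one_or (ε p ω) with h' | h' <;> simp [h']
      rw [h1, min_comm]
    · rw [h]
      have h1 : {ω | ε p ω ≠ -1} = {ω | ε p ω = 1} := by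
        ext ω
        rw [Set.mem_setOf_eq, Set.mem_setOf_eq]
        rcases Int.units_eq_one_or (ε p ω) with h' | h' <;> simp [h']
      rw [h1]
  have hU' : ∀ C κ : ℝ, 0 < κ → ∀ᶠ N : ℕ in atTop,
      ∑ p ∈ PR (l3 N) N, min (θ p) (1 - θ p) / (p : ℝ) ≤ C →
        ∑ p ∈ TOPc 1 N, max (2 * θ p - 1) 0 / (p : ℝ) ≤ κ := by
    intro C κ hκ
    filter_upwards [hU C κ hκ] with N hN h1
    have h2 : Rich P ε N ≤ C := by
      refine le_trans (le_of_eq ?_) h1
      unfold Rich
      exact sum_congr rfl fun p _ => by rw [hmin]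
    refine le_trans (le_of_eq ?_) (hN h2)
    unfold Against
    exact sum_congr rfl fun p _ => by rw [hθ2]
  have hθ0 : ∀ p, 0 ≤ θ p := fun p => measureReal_nonneg
  obtain ⟨q, hq, χ, hχ⟩ : ∃ q : ℕ, 0 < q ∧ ∃ χ : DirichletCharacter ℂ q,
      ¬ Tendsto (fun N => DD g χ 0 N) atTop atTop := by
    unfold Aperiodic at hna
    push Not at hna
    obtain ⟨q, hq, χ, h⟩ := hna
    exact ⟨q, hq, χ, h⟩
  have hmono : Monotone fun N : ℕ => ∑ p ∈ (Icc 1 N).filter Nat.Prime, θ p / (p : ℝ) := by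
    intro a b hab
    refine sum_le_sum_of_subset_of_nonneg (filter_subset_filter _ (Icc_subset_Icc_right hab))
      fun p _ _ => div_nonneg (hθ0 p) (Nat.cast_nonneg p)
  rcases tendsto_atTop_of_monotone hmono with hdiv | ⟨l, hl⟩
  · -- divergence
    have h1 := transfer hε' hind' (ae_vanish (ν := fun p => P.map (ε' p)) (θ := θ) (fun p => rfl)
      hdiv hU')
    filter_upwards [h1] with ω hω f hf hfp
    right
    apply fairAlong_of_vanish le_rfl
    refine (vanish_iff_of_finite (χ := χ) hf (rnd_multS _) hq ?_).mpr hω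
    intro hcon
    apply hχ
    refine hcon.congr fun N => ?_
    unfold DD
    refine sum_congr rfl fun p hp => ?_
    have hpp : p.Prime := (mem_filter.mp hp).2
    have h2 : f p * rnd (fun p => ε' p ω) p = g p := by
      rw [hfp p hpp, rnd_prime _ hpp, hε'd]
      simp only
      rw [← mul_assoc, Int.units_mul_self, one_mul]
    show (1 - (((f p * rnd (fun p => ε' p ω) p : ℤˣ) : ℤ) * (starRingEnd ℂ) (χ (p : ZMod q))).re) /
      (p:ℝ) = _
    rw [h2]
  · -- convergence
    have hC : ∀ N : ℕ, ∑ p ∈ (Icc 1 N).filter Nat.Prime, θ p / (p : ℝ) ≤ l := fun N =>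
      hmono.ge_of_tendsto hl N
    have h1 := transfer hε' hind' (ae_conv (ν := fun p => P.map (ε' p)) (θ := θ) (fun p => rfl) hC)
    filter_upwards [h1] with ω hω f hf hfp
    left
    intro hap
    obtain ⟨B, hB⟩ := hω
    have h2 := hap q hq χ
    apply hχ
    rcases tendsto_atTop_of_monotone (DD_mono g χ) with h3 | ⟨l', hl'⟩
    · exact h3
    · exfalso
      have h3 : ∀ N, DD f χ 0 N ≤ l' + 2 * B := by
        intro N
        refine (DD_le f g χ N).trans ?_
        have h4 := (DD_mono g χ).ge_of_tendsto hl' N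
        have h5 : FM (fun p => f p * g p) ((Icc 1 N).filter Nat.Prime) =
            FM (fun p => ε' p ω) ((Icc 1 N).filter Nat.Prime) := by
          apply FM_congr
          intro p hp
          rw [hfp p (mem_filter.mp hp).2]
        have h6 := hB N
        rw [h5]
        linarith
      obtain ⟨N, hN⟩ := (h2.eventually_gt_atTop (l' + 2 * B)).exists
      exact absurd (h3 N) (not_le.mpr hN)

/-- Case 2: arbitrary biases, divergence only. -/
theorem case_two {Ω : Type*} [MeasurableSpace Ω] {P : Measure Ω} [IsProbabilityMeasure P]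
    {ε : ℕ → Ω → ℤˣ} (hε : ∀ p, Measurable (ε p)) (hind : iIndepFun ε P)
    (hdiv : Tendsto (fun N : ℕ => ∑ p ∈ (Icc 1 N).filter Nat.Prime,
      min (P.real {ω | ε p ω = 1}) (P.real {ω | ε p ω = -1}) / (p : ℝ)) atTop atTop) :
    ∃ S : Set ℕ, UpDens S ∧ ∀ᵐ ω ∂P, ∀ f : ℕ → ℤˣ, MultS f → (∀ p : ℕ, p.Prime → f p = ε p ω) →
      Aperiodic f ∧ FairAlong f (atTop ⊓ 𝓟 S) := by
  set θ : ℕ → ℝ := fun p => (P.map (ε p)).real {-1} with hθd
  have hpm : ∀ p, IsProbabilityMeasure (P.map (ε p)) := fun p =>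
    Measure.isProbabilityMeasure_map (hε p).aemeasurable
  have hθ0 : ∀ p, 0 ≤ θ p := fun p => measureReal_nonneg
  have hθ1 : ∀ p, θ p ≤ 1 := fun p => measureReal_le_one
  have hτ : ∀ p, min (θ p) (1 - θ p) =
      min (P.real {ω | ε p ω = 1}) (P.real {ω | ε p ω = -1}) := by
    intro p
    rw [hθd]
    simp only
    rw [real_one (hε p), real_neg_one (hε p), min_comm]
  have hdiv' : Tendsto (fun N : ℕ => ∑ p ∈ (Icc 1 N).filter Nat.Prime,
      min (θ p) (1 - θ p) / (p : ℝ)) atTop atTop := by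
    refine hdiv.congr fun N => sum_congr rfl fun p _ => by rw [hτ]
  obtain ⟨S, NN, hS, hNN, hneb, hmass, hint⟩ := win_set (τ := fun p => min (θ p) (1 - θ p))
    (fun p => le_min (hθ0 p) (by linarith [hθ1 p])) (fun p => (min_le_left _ _).trans (hθ1 p)) hdiv'
  refine ⟨S, hS, ?_⟩
  have h1 : ∀ᵐ x ∂(Measure.infinitePi fun p => P.map (ε p)), VanishL (atTop ⊓ 𝓟 S) (rnd x) := by
    have h2 : ∀ H : Finset ℕ, ∀ᵐ x ∂(Measure.infinitePi fun p => P.map (ε p)), H.Nonempty →
        Tendsto (LA (prodSeq (rnd x) H)) (atTop ⊓ 𝓟 S) (𝓝 0) := by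
      intro H
      by_cases hne : H.Nonempty
      · have h3 := ae_seq (ν := fun p => P.map (ε p)) (θ := θ) (fun p => rfl) (w := fun _ => 1)
          (fun _ => by simp) hne hNN hmass
        filter_upwards [h3] with x hx _
        apply hint _ (fun n => (abs_prodSeq _ H n).le)
        refine hx.congr fun i => ?_
        rw [FF_one]
      · exact Eventually.of_forall fun x hx => absurd hx hne
    filter_upwards [ae_all_iff.mpr h2] with x hx H hne using hx H hne
  filter_upwards [transfer hε hind h1] with ω hω f hf hfp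
  have hv : VanishL (atTop ⊓ 𝓟 S) f := vanishL_of_primes inf_le_left hf (rnd_multS _)
    (fun p hp => by rw [hfp p hp, rnd_prime _ hp]) hω
  exact ⟨hv.aperiodic inf_le_left hf, fairAlong_of_vanish inf_le_left hv⟩

end Pool.Agent.Lib.P4a7640R
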