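import Mathlib
import Pool.Agent.Lib.P4a7640R.Base

/-!
# From square root windows to all top windows
-/

open Filter Topology Finset

namespace Pool.Agent.Lib.P4a7640R

theorem win_top {φ : ℕ → ℝ} (hφ : ∀ p, 0 ≤ φ p)
    (h : Tendsto (fun N : ℕ => ∑ p ∈ TOPc 1 N, φ p / (p : ℝ)) atTop (𝓝 0)) (c : ℕ) :
    Tendsto (fun N : ℕ => ∑ p ∈ TOPc c N, φ p / (p : ℝ)) atTop (𝓝 0) := by
  have hnn : ∀ p : ℕ, 0 ≤ φ p / (p : ℝ) := fun p => div_nonneg (hφ p) (Nat.cast_nonneg p)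
  induction c with
  | zero =>
    have h0 : ∀ N, TOPc 0 N = ∅ := by
      intro N
      rw [Finset.eq_empty_iff_forall_notMem]
      intro p hp
      obtain ⟨h1, _, h2⟩ := mem_TOPc.1 hp
      rw [pow_zero, pow_one] at h2
      omega
    simp only [h0, Finset.sum_empty]
    exact tendsto_const_nhds
  | succ c ih =>
    have hsq : Tendsto (fun N : ℕ => Nat.sqrt N) atTop atTop :=
      tendsto_atTop.2 fun b => eventually_atTop.2 ⟨b * b, fun N hN => Nat.le_sqrt.2 hN⟩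
    have hs : Tendsto (fun N : ℕ => ∑ p ∈ TOPc c (Nat.sqrt N), φ p / (p : ℝ)) atTop (𝓝 0) :=
      ih.comp hsq
    have hadd := h.add hs
    rw [add_zero] at hadd
    refine squeeze_zero (fun N => Finset.sum_nonneg fun p _ => hnn p) (fun N => ?_) hadd
    have hsub : TOPc (c + 1) N ⊆ TOPc 1 N ∪ TOPc c (Nat.sqrt N) := by
      intro p hp
      obtain ⟨h1, h2, h3⟩ := mem_TOPc.1 hp
      rw [Finset.mem_union, mem_TOPc, mem_TOPc]
      by_cases h4 : N < p ^ (2 ^ 1)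
      · exact Or.inl ⟨h1, h2, h4⟩
      · right
        rw [pow_one, pow_two, not_lt] at h4
        refine ⟨Nat.le_sqrt.2 h4, h2, ?_⟩
        rw [Nat.sqrt_lt, ← pow_two, ← pow_mul, ← pow_succ]
        exact h3
    calc ∑ p ∈ TOPc (c + 1) N, φ p / (p : ℝ) ≤
          ∑ p ∈ TOPc 1 N ∪ TOPc c (Nat.sqrt N), φ p / (p : ℝ) :=
          Finset.sum_le_sum_of_subset_of_nonneg hsub fun p _ _ => hnn p
      _ ≤ ∑ p ∈ TOPc 1 N ∪ TOPc c (Nat.sqrt N), φ p / (p : ℝ) +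
          ∑ p ∈ TOPc 1 N ∩ TOPc c (Nat.sqrt N), φ p / (p : ℝ) :=
          le_add_of_nonneg_right (Finset.sum_nonneg fun p _ => hnn p)
      _ = ∑ p ∈ TOPc 1 N, φ p / (p : ℝ) + ∑ p ∈ TOPc c (Nat.sqrt N), φ p / (p : ℝ) :=
          Finset.sum_union_inter

end Pool.Agent.Lib.P4a7640R
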